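import Mathlib

/-! An abstract gluing lemma for families of homogeneous maps (helper380, MP_fddf76_an). -/

set_option autoImplicit false

namespace Pool.Agent.helper380_c0

/-- A family of positively homogeneous maps which can be glued along the norm. -/
structure Fam (X Y : Type) [NormedAddCommGroup X] [NormedSpace ℝ X] [NormedAddCommGroup Y]
    [NormedSpace ℝ Y] (f : ℝ → X → Y) (L : ℝ) : Prop where
  one_le : 1 ≤ L
  hom : ∀ r x (c : ℝ), 0 < r → 0 ≤ c → f r (c • x) = c • f r x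
  lip : ∀ r x y, 0 < r → ‖f r x - f r y‖ ≤ L * ‖x - y‖
  par : ∀ r t x, 0 < r → 0 < t → ‖f r x - f t x‖ * max r t ≤ L * |r - t| * ‖x‖
  low : ∀ r x, 0 < r → ‖x‖ ≤ L * ‖f r x‖
  est : ∀ t : ℝ, 0 < t → ∃ C : ℝ, 0 ≤ C ∧ ∀ r x y, 0 < r → ‖x‖ ≤ L * r → ‖y‖ ≤ L * r →
    ‖x - y‖ ≤ C * ‖f r x - f r y‖ + t
  surj : ∀ r, 0 < r → Function.Surjective (f r)

/-- Normalised vector. -/
noncomputable def unit {Y : Type} [NormedAddCommGroup Y] [NormedSpace ℝ Y] (a : Y) : Y := ‖a‖⁻¹ • a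

lemma norm_unit {Y : Type} [NormedAddCommGroup Y] [NormedSpace ℝ Y] {a : Y} (h : a ≠ 0) :
    ‖unit a‖ = 1 := by
  unfold unit
  rw [norm_smul, norm_inv, norm_norm]
  exact inv_mul_cancel₀ (norm_ne_zero_iff.2 h)

lemma norm_unit_le {Y : Type} [NormedAddCommGroup Y] [NormedSpace ℝ Y] (a : Y) :
    ‖unit a‖ ≤ 1 := by
  rcases eq_or_ne a 0 with h | h
  · rw [h]; unfold unit; simp
  · rw [norm_unit h]

lemma unit_smul {Y : Type} [NormedAddCommGroup Y] [NormedSpace ℝ Y] {c : ℝ} (hc : 0 < c) (a : Y) :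
    unit (c • a) = unit a := by
  unfold unit
  rw [norm_smul, Real.norm_eq_abs, abs_of_pos hc, smul_smul, mul_inv, mul_comm c⁻¹, mul_assoc,
    inv_mul_cancel₀ hc.ne', mul_one]

lemma smul_unit {Y : Type} [NormedAddCommGroup Y] [NormedSpace ℝ Y] (a : Y) :
    ‖a‖ • unit a = a := by
  rcases eq_or_ne a 0 with h | h
  · rw [h]; simp
  · unfold unit
    rw [smul_smul, mul_inv_cancel₀ (norm_ne_zero_iff.2 h), one_smul]

lemma unit_sub_le {Y : Type} [NormedAddCommGroup Y] [NormedSpace ℝ Y] (a b : Y) :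
    ‖unit a - unit b‖ * ‖b‖ ≤ 2 * ‖a - b‖ := by
  rcases eq_or_ne b 0 with hb | hb
  · rw [hb]; simp
  have hb' : 0 < ‖b‖ := norm_pos_iff.2 hb
  have h1 : ‖b‖ • (unit a - unit b) = (‖b‖ - ‖a‖) • unit a + (a - b) := by
    rw [smul_sub, smul_unit, sub_smul, smul_unit]
    abel
  have h2 : ‖unit a - unit b‖ * ‖b‖ = ‖‖b‖ • (unit a - unit b)‖ := by
    rw [norm_smul, norm_norm, mul_comm]
  rw [h2, h1]
  have h3 := norm_add_le ((‖b‖ - ‖a‖) • unit a) (a - b)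
  have h4 : ‖(‖b‖ - ‖a‖) • unit a‖ ≤ ‖a - b‖ := by
    rw [norm_smul, Real.norm_eq_abs]
    have h5 : |‖b‖ - ‖a‖| ≤ ‖b - a‖ := abs_norm_sub_norm_le b a
    rw [norm_sub_rev] at h5
    calc _ ≤ |‖b‖ - ‖a‖| * 1 := mul_le_mul_of_nonneg_left (norm_unit_le a) (abs_nonneg _)
      _ ≤ _ := by linarith
  linarith

/-- Estimate for the glued maps. -/
lemma smul_unit_sub_le {Y : Type} [NormedAddCommGroup Y] [NormedSpace ℝ Y] {a b : Y} {r t L : ℝ}
    (ht : 0 ≤ t) (hL : 0 ≤ L) (h : t ≤ L * ‖b‖) :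
    ‖r • unit a - t • unit b‖ ≤ |r - t| + 2 * L * ‖a - b‖ := by
  have h1 : r • unit a - t • unit b = (r - t) • unit a + t • (unit a - unit b) := by
    rw [sub_smul, smul_sub]; abel
  rw [h1]
  have h2 := norm_add_le ((r - t) • unit a) (t • (unit a - unit b))
  have h3 : ‖(r - t) • unit a‖ ≤ |r - t| := by
    rw [norm_smul, Real.norm_eq_abs]
    calc _ ≤ |r - t| * 1 := mul_le_mul_of_nonneg_left (norm_unit_le a) (abs_nonneg _)
      _ = _ := mul_one _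
  have h4 : ‖t • (unit a - unit b)‖ ≤ 2 * L * ‖a - b‖ := by
    rw [norm_smul, Real.norm_eq_abs, abs_of_nonneg ht]
    have h5 := unit_sub_le a b
    calc t * ‖unit a - unit b‖ ≤ (L * ‖b‖) * ‖unit a - unit b‖ :=
          mul_le_mul_of_nonneg_right h (norm_nonneg _)
      _ = L * (‖unit a - unit b‖ * ‖b‖) := by ring
      _ ≤ L * (2 * ‖a - b‖) := mul_le_mul_of_nonneg_left h5 hL
      _ = _ := by ring
  linarith

namespace Fam

variable {X Y : Type} [NormedAddCommGroup X] [NormedSpace ℝ X] [NormedAddCommGroup Y]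
    [NormedSpace ℝ Y] {f : ℝ → X → Y} {L : ℝ}

lemma map_zero (h : Fam X Y f L) {r : ℝ} (hr : 0 < r) : f r 0 = 0 := by
  have := h.hom r 0 0 hr le_rfl
  rwa [zero_smul, zero_smul] at this

lemma ne_zero (h : Fam X Y f L) {r : ℝ} (hr : 0 < r) {x : X} (hx : x ≠ 0) : f r x ≠ 0 := by
  intro h0
  have h1 := h.low r x hr
  rw [h0, norm_zero, mul_zero] at h1
  exact hx (norm_le_zero_iff.1 h1)

lemma norm_le (h : Fam X Y f L) {r : ℝ} (hr : 0 < r) (x : X) : ‖f r x‖ ≤ L * ‖x‖ := by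
  have := h.lip r x 0 hr
  rwa [h.map_zero hr, sub_zero, sub_zero] at this

lemma inj (h : Fam X Y f L) {r : ℝ} (hr : 0 < r) : Function.Injective (f r) := by
  intro x y hxy
  by_contra hne
  have hL : 0 < L := lt_of_lt_of_le one_pos h.one_le
  -- scale down
  set M : ℝ := ‖x‖ + ‖y‖ + 1 with hM
  have hM0 : 0 < M := by positivity
  set c : ℝ := L * r / M with hc
  have hc0 : 0 < c := by positivity
  have h1 : ‖c • x‖ ≤ L * r := by
    rw [norm_smul, Real.norm_eq_abs, abs_of_pos hc0, hc, div_mul_eq_mul_div,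
      div_le_iff₀ hM0]
    apply mul_le_mul_of_nonneg_left _ (by positivity)
    have := norm_nonneg y
    linarith
  have h2 : ‖c • y‖ ≤ L * r := by
    rw [norm_smul, Real.norm_eq_abs, abs_of_pos hc0, hc, div_mul_eq_mul_div,
      div_le_iff₀ hM0]
    apply mul_le_mul_of_nonneg_left _ (by positivity)
    have := norm_nonneg x
    linarith
  have h3 : f r (c • x) = f r (c • y) := by
    rw [h.hom r x c hr hc0.le, h.hom r y c hr hc0.le, hxy]
  have h4 : 0 < ‖c • x - c • y‖ := by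
    rw [norm_pos_iff, ← smul_sub]
    exact smul_ne_zero hc0.ne' (sub_ne_zero.2 hne)
  obtain ⟨C, _, hC'⟩ := h.est (‖c • x - c • y‖ / 2) (by positivity)
  have h5 := hC' r (c • x) (c • y) hr h1 h2
  rw [h3, sub_self, norm_zero, mul_zero, zero_add] at h5
  linarith

/-- The forward glued map. -/
noncomputable def F (f : ℝ → X → Y) (x : X) : Y := ‖x‖ • unit (f ‖x‖ x)

open Classical in
/-- The backward glued map. -/
noncomputable def G (f : ℝ → X → Y) (g : Y) : X := ‖g‖ • unit (Function.invFun (f ‖g‖) g)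

lemma F_zero (f : ℝ → X → Y) : F f 0 = 0 := by
  unfold F; rw [norm_zero, zero_smul]

lemma G_zero (f : ℝ → X → Y) : G f 0 = 0 := by
  unfold G; rw [norm_zero, zero_smul]

lemma G_spec (h : Fam X Y f L) {g : Y} (hg : g ≠ 0) :
    ∃ x : X, x ≠ 0 ∧ f ‖g‖ x = g ∧ G f g = ‖g‖ • unit x := by
  have hr : 0 < ‖g‖ := norm_pos_iff.2 hg
  refine ⟨Function.invFun (f ‖g‖) g, ?_, ?_, rfl⟩
  · intro h0
    have h1 : f ‖g‖ (Function.invFun (f ‖g‖) g) = g := Function.invFun_eq (h.surj _ hr g)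
    rw [h0, h.map_zero hr] at h1
    exact hg h1.symm
  · exact Function.invFun_eq (h.surj _ hr g)

lemma norm_F (h : Fam X Y f L) (x : X) : ‖F f x‖ = ‖x‖ := by
  rcases eq_or_ne x 0 with h0 | h0
  · rw [h0, F_zero, norm_zero, norm_zero]
  · have hr : 0 < ‖x‖ := norm_pos_iff.2 h0
    unfold F
    rw [norm_smul, norm_norm, norm_unit (h.ne_zero hr h0), mul_one]

lemma norm_G (h : Fam X Y f L) (g : Y) : ‖G f g‖ = ‖g‖ := by
  rcases eq_or_ne g 0 with h0 | h0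
  · rw [h0, G_zero, norm_zero, norm_zero]
  · obtain ⟨x, hx, _, h2⟩ := h.G_spec h0
    rw [h2, norm_smul, norm_norm, norm_unit hx, mul_one]

lemma G_F (h : Fam X Y f L) (x : X) : G f (F f x) = x := by
  rcases eq_or_ne x 0 with h0 | h0
  · rw [h0, F_zero, G_zero]
  have hr : 0 < ‖x‖ := norm_pos_iff.2 h0
  have hne : F f x ≠ 0 := by
    rw [← norm_pos_iff, h.norm_F]; exact hr
  obtain ⟨y, _, hy1, hy2⟩ := h.G_spec hne
  rw [h.norm_F] at hy1 hy2
  have hfx := h.ne_zero hr h0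
  have hfx' : 0 < ‖f ‖x‖ x‖ := norm_pos_iff.2 hfx
  set c : ℝ := ‖x‖ * ‖f ‖x‖ x‖⁻¹ with hc
  have hc0 : 0 < c := by positivity
  have h1 : F f x = f ‖x‖ (c • x) := by
    rw [h.hom _ _ _ hr hc0.le]
    unfold F unit
    rw [smul_smul]
  rw [h1] at hy1
  have h2 := h.inj hr hy1
  rw [hy2, h2, unit_smul hc0, smul_unit]

lemma F_G (h : Fam X Y f L) (g : Y) : F f (G f g) = g := by
  rcases eq_or_ne g 0 with h0 | h0
  · rw [h0, G_zero, F_zero]
  have hr : 0 < ‖g‖ := norm_pos_iff.2 h0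
  obtain ⟨x, hx, hx1, hx2⟩ := h.G_spec h0
  have hx' : 0 < ‖x‖ := norm_pos_iff.2 hx
  unfold F
  rw [h.norm_G, hx2]
  set c : ℝ := ‖g‖ * ‖x‖⁻¹ with hc
  have hc0 : 0 < c := by positivity
  have h1 : ‖g‖ • unit x = c • x := by
    unfold unit; rw [smul_smul]
  rw [h1, h.hom _ _ _ hr hc0.le, hx1, unit_smul hc0, smul_unit]

lemma par' (h : Fam X Y f L) {r t : ℝ} (hr : 0 < r) (ht : 0 < t) {y : X} {B : ℝ}
    (hy : ‖y‖ ≤ B * max r t) : ‖f r y - f t y‖ ≤ L * B * |r - t| := by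
  have hm : 0 < max r t := lt_max_of_lt_left hr
  have hL : 0 ≤ L := zero_le_one.trans h.one_le
  have h1 := h.par r t y hr ht
  have h2 : ‖f r y - f t y‖ * max r t ≤ (L * B * |r - t|) * max r t := by
    calc _ ≤ L * |r - t| * ‖y‖ := h1
      _ ≤ L * |r - t| * (B * max r t) := mul_le_mul_of_nonneg_left hy (by positivity)
      _ = _ := by ring
  exact le_of_mul_le_mul_right h2 hm

lemma F_lip (h : Fam X Y f L) (x y : X) : ‖F f x - F f y‖ ≤ (1 + 4 * L ^ 2) * ‖x - y‖ := by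
  have hL : 0 ≤ L := zero_le_one.trans h.one_le
  rcases eq_or_ne x 0 with hx | hx
  · rw [hx, F_zero, zero_sub, zero_sub, norm_neg, norm_neg, h.norm_F]
    have := norm_nonneg y
    have h2 : 0 ≤ L ^ 2 * ‖y‖ := by positivity
    linarith
  rcases eq_or_ne y 0 with hy | hy
  · rw [hy, F_zero, sub_zero, sub_zero, h.norm_F]
    have := norm_nonneg x
    have h2 : 0 ≤ L ^ 2 * ‖x‖ := by positivity
    linarith
  have hr : 0 < ‖x‖ := norm_pos_iff.2 hx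
  have ht : 0 < ‖y‖ := norm_pos_iff.2 hy
  have h1 := smul_unit_sub_le (a := f ‖x‖ x) (b := f ‖y‖ y) (r := ‖x‖) (t := ‖y‖) (L := L)
    ht.le hL (h.low _ _ ht)
  have h2 : |‖x‖ - ‖y‖| ≤ ‖x - y‖ := abs_norm_sub_norm_le x y
  have h3 : ‖f ‖x‖ y - f ‖y‖ y‖ ≤ L * 1 * |‖x‖ - ‖y‖| :=
    h.par' hr ht (by rw [one_mul]; exact le_max_right _ _)
  have h4 := h.lip ‖x‖ x y hr
  have h5 : ‖f ‖x‖ x - f ‖y‖ y‖ ≤ ‖f ‖x‖ x - f ‖x‖ y‖ + ‖f ‖x‖ y - f ‖y‖ y‖ :=
    norm_sub_le_norm_sub_add_norm_sub _ _ _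
  have h6 : L * 1 * |‖x‖ - ‖y‖| ≤ L * ‖x - y‖ := by
    rw [mul_one]; exact mul_le_mul_of_nonneg_left h2 hL
  have h7 : 2 * L * ‖f ‖x‖ x - f ‖y‖ y‖ ≤ 2 * L * (2 * L * ‖x - y‖) := by
    apply mul_le_mul_of_nonneg_left _ (by positivity)
    linarith
  unfold F
  calc _ ≤ _ := h1
    _ ≤ ‖x - y‖ + 2 * L * (2 * L * ‖x - y‖) := by linarith
    _ = _ := by ring

lemma G_est (h : Fam X Y f L) (t : ℝ) (ht : 0 < t) : ∃ C : ℝ, 0 ≤ C ∧ ∀ g k : Y, ‖k‖ ≤ ‖g‖ →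
    ‖G f g - G f k‖ ≤ C * ‖g - k‖ + t := by
  have hL1 := h.one_le
  have hL : 0 < L := lt_of_lt_of_le one_pos h.one_le
  obtain ⟨C, hC0, hC⟩ := h.est (t / (2 * L)) (by positivity)
  refine ⟨1 + 2 * L * (C * (1 + L ^ 2)), by positivity, ?_⟩
  intro g k hkg
  rcases eq_or_ne k 0 with hk | hk
  · rw [hk, G_zero, sub_zero, sub_zero, h.norm_G]
    have h1 : 0 ≤ 2 * L * (C * (1 + L ^ 2)) * ‖g‖ := by positivity
    linarith
  have hs : 0 < ‖k‖ := norm_pos_iff.2 hk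
  have hr : 0 < ‖g‖ := hs.trans_le hkg
  have hg : g ≠ 0 := norm_pos_iff.1 hr
  obtain ⟨x, hx, hx1, hx2⟩ := h.G_spec hg
  obtain ⟨y, hy, hy1, hy2⟩ := h.G_spec hk
  rw [hx2, hy2]
  have hlow : ‖k‖ ≤ L * ‖y‖ := by
    have := h.norm_le hs y
    rwa [hy1] at this
  have h1 := smul_unit_sub_le (a := x) (b := y) (r := ‖g‖) (t := ‖k‖) (L := L) hs.le hL.le hlow
  have hxb : ‖x‖ ≤ L * ‖g‖ := by
    have := h.low ‖g‖ x hr
    rwa [hx1] at this
  have hyb : ‖y‖ ≤ L * ‖k‖ := by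
    have := h.low ‖k‖ y hs
    rwa [hy1] at this
  have hyb' : ‖y‖ ≤ L * ‖g‖ := hyb.trans (mul_le_mul_of_nonneg_left hkg hL.le)
  have h2 := hC ‖g‖ x y hr hxb hyb'
  have h3 : |‖g‖ - ‖k‖| ≤ ‖g - k‖ := abs_norm_sub_norm_le g k
  have h4 : ‖f ‖g‖ y - f ‖k‖ y‖ ≤ L * L * |‖g‖ - ‖k‖| :=
    h.par' hr hs (hyb.trans (mul_le_mul_of_nonneg_left (le_max_right _ _) hL.le))
  have h5 : ‖f ‖g‖ x - f ‖g‖ y‖ ≤ ‖f ‖g‖ x - f ‖k‖ y‖ + ‖f ‖k‖ y - f ‖g‖ y‖ :=
    norm_sub_le_norm_sub_add_norm_sub _ _ _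
  rw [hx1, hy1, norm_sub_rev k] at h5
  rw [hy1] at h4
  rw [hx1] at h2
  have h6 : L * L * |‖g‖ - ‖k‖| ≤ L * L * ‖g - k‖ := mul_le_mul_of_nonneg_left h3 (by positivity)
  have h7 : C * ‖g - f ‖g‖ y‖ ≤ C * ((1 + L ^ 2) * ‖g - k‖) := by
    apply mul_le_mul_of_nonneg_left _ hC0
    have : (1 + L ^ 2) * ‖g - k‖ = ‖g - k‖ + L * L * ‖g - k‖ := by ring
    linarith
  have h8 : 2 * L * ‖x - y‖ ≤ 2 * L * (C * ((1 + L ^ 2) * ‖g - k‖) + t / (2 * L)) := by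
    apply mul_le_mul_of_nonneg_left _ (by positivity)
    linarith
  have h9 : 2 * L * (C * ((1 + L ^ 2) * ‖g - k‖) + t / (2 * L)) =
      2 * L * (C * (1 + L ^ 2)) * ‖g - k‖ + t := by
    field_simp
  rw [h9] at h8
  linarith

lemma G_est' (h : Fam X Y f L) (t : ℝ) (ht : 0 < t) : ∃ C : ℝ, 0 ≤ C ∧ ∀ g k : Y,
    ‖G f g - G f k‖ ≤ C * ‖g - k‖ + t := by
  obtain ⟨C, hC0, hC⟩ := h.G_est t ht
  refine ⟨C, hC0, fun g k => ?_⟩
  rcases le_total ‖k‖ ‖g‖ with h1 | h1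
  · exact hC g k h1
  · rw [norm_sub_rev, norm_sub_rev g]
    exact hC k g h1

/-- The gluing lemma. -/
theorem uniformEquiv (h : Fam X Y f L) : Nonempty (UniformEquiv X Y) := by
  refine ⟨⟨⟨F f, G f, h.G_F, h.F_G⟩, ?_, ?_⟩⟩
  · show UniformContinuous (F f)
    have hL : LipschitzWith (Real.toNNReal (1 + 4 * L ^ 2)) (F f) := by
      apply LipschitzWith.of_dist_le_mul
      intro x y
      rw [dist_eq_norm, dist_eq_norm, Real.coe_toNNReal _ (by positivity)]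
      exact h.F_lip x y
    exact hL.uniformContinuous
  · show UniformContinuous (G f)
    rw [Metric.uniformContinuous_iff]
    intro ε hε
    obtain ⟨C, hC0, hC⟩ := h.G_est' (ε / 2) (by positivity)
    refine ⟨ε / 2 / (C + 1), by positivity, fun {g k} hgk => ?_⟩
    rw [dist_eq_norm] at hgk ⊢
    have h1 := hC g k
    have h2 : C * ‖g - k‖ < ε / 2 := by
      rw [lt_div_iff₀ (by positivity)] at hgk
      have h3 : 0 ≤ ‖g - k‖ := norm_nonneg _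
      rcases h3.eq_or_lt with h4 | h4
      · rw [← h4, mul_zero]; positivity
      · nlinarith
    linarith

end Fam

end Pool.Agent.helper380_c0
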