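import Pool.Agent.helper380_c0.Space
import Pool.Agent.helper380_c0.Glue

/-! The space is uniformly homeomorphic to `c_0` (helper380, MP_fddf76_an). -/

set_option autoImplicit false

open Filter Topology BoundedContinuousFunction
open scoped ZeroAtInfty

namespace Pool.Agent.helper380_c0

/-- The parameter at radius `r`. -/
noncomputable def chi (r : ℝ) (n : ℕ) : ℝ := max 0 (min 1 (2 - r / 2 ^ n))

lemma chi_nonneg (r : ℝ) (n : ℕ) : 0 ≤ chi r n := le_max_left _ _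

lemma chi_le_one (r : ℝ) (n : ℕ) : chi r n ≤ 1 := max_le zero_le_one (min_le_left _ _)

lemma chi_eq_one {r : ℝ} {n : ℕ} (h : r ≤ 2 ^ n) : chi r n = 1 := by
  unfold chi
  have h1 : r / 2 ^ n ≤ 1 := by
    rw [div_le_one (by positivity)]; exact h
  rw [min_eq_left (by linarith), max_eq_right zero_le_one]

lemma chi_eq_zero {r : ℝ} {n : ℕ} (h : 2 * 2 ^ n ≤ r) : chi r n = 0 := by
  unfold chi
  have h1 : 2 ≤ r / 2 ^ n := by
    rw [le_div_iff₀ (by positivity)]; exact h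
  rw [min_eq_right (by linarith), max_eq_left (by linarith)]

lemma chi_le {r : ℝ} {n : ℕ} (h : r ≤ 2 * 2 ^ n) : chi r n ≤ 2 - r / 2 ^ n := by
  unfold chi
  have h1 : r / 2 ^ n ≤ 2 := by
    rw [div_le_iff₀ (by positivity)]; exact h
  exact max_le (by linarith) (min_le_right _ _)

lemma chi_sub_aux {r t : ℝ} (htr : t ≤ r) (n : ℕ) :
    0 ≤ chi t n - chi r n ∧ (chi t n - chi r n) * r ≤ 2 * (r - t) := by
  have hp : (0 : ℝ) < 2 ^ n := by positivity
  have h0 : t / 2 ^ n ≤ r / 2 ^ n := div_le_div_of_nonneg_right htr hp.le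
  constructor
  · unfold chi
    have : max 0 (min 1 (2 - r / 2 ^ n)) ≤ max 0 (min 1 (2 - t / 2 ^ n)) :=
      max_le_max le_rfl (min_le_min le_rfl (by linarith))
    linarith
  · rcases le_total r (2 * 2 ^ n) with h1 | h1
    · -- near case
      have h2 : chi t n - chi r n ≤ (r - t) / 2 ^ n := by
        unfold chi
        rw [sub_div]
        have h3 : max 0 (min 1 (2 - t / 2 ^ n)) ≤
            max 0 (min 1 (2 - r / 2 ^ n)) + (r / 2 ^ n - t / 2 ^ n) := by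
          apply max_le
          · have := le_max_left (0 : ℝ) (min 1 (2 - r / 2 ^ n))
            linarith
          · have h4 := le_max_right (0 : ℝ) (min 1 (2 - r / 2 ^ n))
            rcases le_total 1 (2 - r / 2 ^ n) with h5 | h5
            · rw [min_eq_left h5] at h4 ⊢
              have := min_le_left (1 : ℝ) (2 - t / 2 ^ n)
              linarith
            · rw [min_eq_right h5] at h4 ⊢
              have := min_le_right (1 : ℝ) (2 - t / 2 ^ n)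
              linarith
        linarith
      rcases le_total r 0 with hr | hr
      · -- nonpositive radius
        have e1 : chi r n = 1 := chi_eq_one (hr.trans hp.le)
        have e2 : chi t n = 1 := chi_eq_one ((htr.trans hr).trans hp.le)
        rw [e1, e2]; linarith
      · calc (chi t n - chi r n) * r ≤ (r - t) / 2 ^ n * (2 * 2 ^ n) := by
              apply mul_le_mul h2 h1 hr
              apply div_nonneg (by linarith) hp.le
          _ = 2 * (r - t) := by field_simp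
    · have e1 : chi r n = 0 := chi_eq_zero h1
      rw [e1, sub_zero]
      rcases le_total (2 * 2 ^ n) t with h2 | h2
      · rw [chi_eq_zero h2]; linarith
      · have h3 := chi_le h2
        have h4 := chi_le_one t n
        have h5 : 2 * t ≤ (2 - chi t n) * r := by
          have h6 : t / 2 ^ n * (2 * 2 ^ n) = 2 * t := by field_simp
          have h7 : 0 ≤ 2 - chi t n := by linarith
          calc 2 * t = t / 2 ^ n * (2 * 2 ^ n) := h6.symm
            _ ≤ (2 - chi t n) * (2 * 2 ^ n) :=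
                mul_le_mul_of_nonneg_right (by linarith) (by positivity)
            _ ≤ (2 - chi t n) * r := mul_le_mul_of_nonneg_left h1 h7
        linarith

lemma chi_sub {r t : ℝ} (n : ℕ) : |chi r n - chi t n| * max r t ≤ 2 * |r - t| := by
  rcases le_total t r with h | h
  · obtain ⟨h1, h2⟩ := chi_sub_aux h n
    rw [abs_sub_comm (chi r n), abs_of_nonneg h1, max_eq_left h, abs_of_nonneg (by linarith)]
    exact h2
  · obtain ⟨h1, h2⟩ := chi_sub_aux h n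
    rw [abs_of_nonneg h1, max_eq_right h, abs_sub_comm, abs_of_nonneg (by linarith)]
    exact h2

namespace Sys

lemma chi_zone (r : ℝ) : ∃ N : ℕ, IsZone (chi r) N ∧ r < 2 ^ (N + 1) := by
  classical
  have hex : ∃ N : ℕ, r < 2 ^ (N + 1) := by
    obtain ⟨N, hN⟩ := pow_unbounded_of_one_lt r (show (1 : ℝ) < 2 by norm_num)
    exact ⟨N, hN.trans_le (pow_le_pow_right₀ (by norm_num) (by omega))⟩
  refine ⟨Nat.find hex, ⟨?_, ?_, ?_⟩, Nat.find_spec hex⟩
  · intro n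
    rw [abs_of_nonneg (chi_nonneg r n)]
    exact chi_le_one r n
  · intro n hn
    have h1 := Nat.find_min hex hn
    apply chi_eq_zero
    have h2 : (2 : ℝ) ^ (n + 1) = 2 * 2 ^ n := by rw [pow_succ]; ring
    rw [← h2]
    exact not_lt.1 h1
  · intro n hn
    have h1 := Nat.find_spec hex
    apply chi_eq_one
    exact h1.le.trans (pow_le_pow_right₀ (by norm_num) hn)

variable (s : Sys)

lemma fam_tendsto (r : ℝ) (x : s.X) : Tendsto (s.f (chi r) (x : ℕ →ᵇ ℝ)) atTop (𝓝 0) := by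
  obtain ⟨N, hN, _⟩ := chi_zone r
  exact s.f_tendsto hN x.2

/-- The family of damped maps as maps to `c_0`. -/
noncomputable def fam (r : ℝ) (x : s.X) : C₀(ℕ, ℝ) :=
  mk0 (s.f (chi r) (x : ℕ →ᵇ ℝ)) (s.fam_tendsto r x)

lemma fam_apply (r : ℝ) (x : s.X) (n : ℕ) : s.fam r x n = s.f (chi r) (x : ℕ →ᵇ ℝ) n := rfl

lemma fam_hom (r : ℝ) (x : s.X) (c : ℝ) (hc : 0 ≤ c) : s.fam r (c • x) = c • s.fam r x := by
  ext n
  have h1 : s.fam r (c • x) n = s.f (chi r) (c • ((x : ℕ →ᵇ ℝ) : ℕ → ℝ)) n := rfl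
  rw [h1, s.f_smul hc]
  rfl

lemma fam_lip (r : ℝ) (x y : s.X) : ‖s.fam r x - s.fam r y‖ ≤ 32 * ‖x - y‖ := by
  have hn : ‖x - y‖ = ‖(x : ℕ →ᵇ ℝ) - (y : ℕ →ᵇ ℝ)‖ := rfl
  rw [hn]
  apply c0_norm_le (by positivity)
  intro n
  have h1 : (s.fam r x - s.fam r y) n =
    s.f (chi r) (x : ℕ →ᵇ ℝ) n - s.f (chi r) (y : ℕ →ᵇ ℝ) n := rfl
  rw [h1]
  have h2 := s.f_lip (χ := chi r) (x := (x : ℕ →ᵇ ℝ)) (y := (y : ℕ →ᵇ ℝ))
    (R := max ‖(x : ℕ →ᵇ ℝ)‖ ‖(y : ℕ →ᵇ ℝ)‖) (d := ‖(x : ℕ →ᵇ ℝ) - (y : ℕ →ᵇ ℝ)‖)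
    (fun n => by rw [abs_of_nonneg (chi_nonneg r n)]; exact chi_le_one r n)
    (fun q => (b_abs_le _ q).trans (le_max_left _ _))
    (fun q => (b_abs_le _ q).trans (le_max_right _ _)) (norm_nonneg _)
    (fun q => b_abs_le ((x : ℕ →ᵇ ℝ) - (y : ℕ →ᵇ ℝ)) q) n
  have h3 : 0 ≤ ‖(x : ℕ →ᵇ ℝ) - (y : ℕ →ᵇ ℝ)‖ := norm_nonneg _
  linarith

lemma fam_par (r t : ℝ) (x : s.X) (hr : 0 < r) (_ht : 0 < t) :
    ‖s.fam r x - s.fam t x‖ * max r t ≤ 32 * |r - t| * ‖x‖ := by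
  have hm : 0 < max r t := lt_max_of_lt_left hr
  have hx0 : 0 ≤ ‖x‖ := norm_nonneg x
  rw [← le_div_iff₀ hm]
  apply c0_norm_le (by positivity)
  intro n
  rw [le_div_iff₀ hm]
  have h1 : (s.fam r x - s.fam t x) n =
    s.f (chi r) (x : ℕ →ᵇ ℝ) n - s.f (chi t) (x : ℕ →ᵇ ℝ) n := rfl
  have h2 : s.f (chi r) (x : ℕ →ᵇ ℝ) n - s.f (chi t) (x : ℕ →ᵇ ℝ) n =
    - ((chi r n - chi t n) * H (s.A (x : ℕ →ᵇ ℝ) n) (s.Wt (x : ℕ →ᵇ ℝ) (n + 1))) := by
    unfold f; ring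
  rw [h1, h2, abs_neg, abs_mul]
  have h3 := H_abs_le (a := s.A (x : ℕ →ᵇ ℝ) n) (s.Wt_nonneg (x : ℕ →ᵇ ℝ) (n + 1))
  have h4 : |s.A (x : ℕ →ᵇ ℝ) n| ≤ ‖x‖ := s.A_le hx0 (fun l _ => b_abs_le (x : ℕ →ᵇ ℝ) l)
  have h5 := chi_sub (r := r) (t := t) n
  have h6 := abs_nonneg (chi r n - chi t n)
  have h7 := abs_nonneg (r - t)
  calc |chi r n - chi t n| * |H (s.A (x : ℕ →ᵇ ℝ) n) (s.Wt (x : ℕ →ᵇ ℝ) (n + 1))| * max r t
      ≤ |chi r n - chi t n| * ‖x‖ * max r t := by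
        apply mul_le_mul_of_nonneg_right _ hm.le
        exact mul_le_mul_of_nonneg_left (h3.trans h4) h6
    _ = (|chi r n - chi t n| * max r t) * ‖x‖ := by ring
    _ ≤ (2 * |r - t|) * ‖x‖ := mul_le_mul_of_nonneg_right h5 hx0
    _ ≤ 32 * |r - t| * ‖x‖ := by
        apply mul_le_mul_of_nonneg_right _ hx0
        linarith

lemma fam_low (r : ℝ) (x : s.X) : ‖x‖ ≤ 32 * ‖s.fam r x‖ := by
  obtain ⟨N, hN, _⟩ := chi_zone r
  have hn : ‖x‖ = ‖(x : ℕ →ᵇ ℝ)‖ := rfl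
  rw [hn]
  exact s.norm_lower hN (x : ℕ →ᵇ ℝ) (norm_nonneg _) (fun n => c0_abs_le (s.fam r x) n)

lemma fam_surj (r : ℝ) : Function.Surjective (s.fam r) := by
  intro g
  obtain ⟨N, hN, _⟩ := chi_zone r
  obtain ⟨x, hx⟩ := s.exists_sol hN g
  refine ⟨x, ?_⟩
  ext n
  exact hx n

lemma fam_est (t : ℝ) (ht : 0 < t) : ∃ C : ℝ, 0 ≤ C ∧ ∀ r (x y : s.X), 0 < r →
    ‖x‖ ≤ 32 * r → ‖y‖ ≤ 32 * r → ‖x - y‖ ≤ C * ‖s.fam r x - s.fam r y‖ + t := by
  obtain ⟨M, hM⟩ : ∃ M : ℕ, 32 / t < 2 ^ M := pow_unbounded_of_one_lt _ (by norm_num)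
  have hM' : 32 / 2 ^ M ≤ t := by
    rw [div_lt_iff₀ ht] at hM
    rw [div_le_iff₀ (by positivity)]
    linarith
  refine ⟨2 ^ (2 * M + 9), by positivity, ?_⟩
  intro r x y hr hx hy
  obtain ⟨N, hN, hrN⟩ := chi_zone r
  set R : ℝ := 2 ^ (N + 6) with hR
  have hRpos : 0 < R := by positivity
  have hRr : 32 * r ≤ R := by
    have : R = 32 * 2 ^ (N + 1) := by rw [hR, pow_add, pow_add]; norm_num; ring
    rw [this]; linarith
  have hxn : ∀ n, |(x : ℕ →ᵇ ℝ) n| ≤ R := fun n => (b_abs_le _ n).trans (hx.trans hRr)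
  have hyn : ∀ n, |(y : ℕ →ᵇ ℝ) n| ≤ R := fun n => (b_abs_le _ n).trans (hy.trans hRr)
  set δ : ℝ := ‖s.fam r x - s.fam r y‖ with hδ
  have hδ0 : 0 ≤ δ := norm_nonneg _
  have hf : ∀ n, |s.f (chi r) (x : ℕ →ᵇ ℝ) n - s.f (chi r) (y : ℕ →ᵇ ℝ) n| ≤ δ :=
    fun n => c0_abs_le (s.fam r x - s.fam r y) n
  have hn : ‖x - y‖ = ‖(x : ℕ →ᵇ ℝ) - (y : ℕ →ᵇ ℝ)‖ := rfl
  rw [hn]
  apply b_norm_le (by positivity)
  intro n
  have hsub : ((x : ℕ →ᵇ ℝ) - (y : ℕ →ᵇ ℝ)) n = (x : ℕ →ᵇ ℝ) n - (y : ℕ →ᵇ ℝ) n := rfl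
  rw [hsub]
  by_cases hNM : M ≤ N
  · -- large radius
    have h1 := s.est_zone hRpos hδ0 hxn hyn hN.1 hN.2.1 hN.2.2 hf n
    have h2 : 32 * R / 4 ^ (N + 3) = 32 / 2 ^ N := by
      have h3 : (4 : ℝ) ^ (N + 3) = 2 ^ (N + 6) * 2 ^ N := by
        rw [← pow_add, show (4 : ℝ) = 2 ^ 2 by norm_num, ← pow_mul]
        congr 1
        ring
      rw [h3, hR]
      field_simp
    have h4 : (32 : ℝ) / 2 ^ N ≤ 32 / 2 ^ M := by
      apply div_le_div_of_nonneg_left (by norm_num) (by positivity)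
      exact pow_le_pow_right₀ (by norm_num) hNM
    have h5 : 16 * δ ≤ 2 ^ (2 * M + 9) * δ := by
      apply mul_le_mul_of_nonneg_right _ hδ0
      have : (1 : ℝ) ≤ 2 ^ (2 * M) := one_le_pow₀ (by norm_num)
      rw [pow_add]
      linarith
    rw [h2] at h1
    linarith
  · have h1 := s.est_rec (2 * M + 6) hRpos hδ0 hxn hyn hN.1 (fun n hn => hN.2.2 n (by omega)) hf n
    have h2 : R / 2 ^ (2 * M + 6) ≤ 32 / 2 ^ M := by
      have h3 : R ≤ 2 ^ (M + 6) := pow_le_pow_right₀ (by norm_num) (by omega)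
      have h4 : (2 : ℝ) ^ (2 * M + 6) = 2 ^ (M + 6) * 2 ^ M := by
        rw [← pow_add]; congr 1; ring
      rw [h4]
      rw [div_le_div_iff₀ (by positivity) (by positivity)]
      have h5 : (0 : ℝ) < 2 ^ M := by positivity
      have h6 : (0 : ℝ) < 2 ^ (M + 6) := by positivity
      nlinarith [mul_le_mul_of_nonneg_right h3 h5.le, mul_pos h5 h6]
    have h3 : 2 * M + 6 + 3 = 2 * M + 9 := by omega
    rw [h3] at h1
    linarith

/-- The family satisfies the assumptions of the gluing lemma. -/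
theorem isFam : Fam s.X (C₀(ℕ, ℝ)) s.fam 32 where
  one_le := by norm_num
  hom := fun r x c _ hc => s.fam_hom r x c hc
  lip := fun r x y _ => s.fam_lip r x y
  par := fun r t x hr ht => s.fam_par r t x hr ht
  low := fun r x _ => s.fam_low r x
  est := s.fam_est
  surj := fun r _ => s.fam_surj r

/-- The space is uniformly homeomorphic to `c_0`. -/
theorem uniformEquiv : Nonempty (UniformEquiv s.X (C₀(ℕ, ℝ))) := s.isFam.uniformEquiv

end Sys

end Pool.Agent.helper380_c0
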