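import Pool.Agent.helper380_c0.Space

/-! The space is not isomorphic to a subspace of `c_0` (helper380, MP_fddf76_an). -/

set_option autoImplicit false

open Filter Topology BoundedContinuousFunction
open scoped ZeroAtInfty

namespace Pool.Agent.helper380_c0

namespace Sys

variable (s : Sys)

/-- Extension of the unit vector `e_n` by averages. -/
noncomputable def d (n : ℕ) : ℕ → ℝ
  | q => (if q = n then 1 else 0) + (∑ l : {l // l ∈ s.S q}, d n l.1) / ((s.S q).card : ℝ)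
termination_by q => q
decreasing_by exact s.lt_of_mem l.2

lemma d_eq (n q : ℕ) : s.d n q = (if q = n then 1 else 0) + s.A (s.d n) q := by
  rw [d]
  unfold A
  congr 2
  exact Finset.sum_coe_sort (s.S q) (s.d n)

lemma d_zero_of_lt {n q : ℕ} (h : q < n) : s.d n q = 0 := by
  induction q using Nat.strong_induction_on with
  | _ q ih =>
    rw [s.d_eq, if_neg (by omega), zero_add]
    have : s.A (s.d n) q = s.A 0 q := by
      apply s.A_congr
      intro l hl
      have h1 := s.lt_of_mem hl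
      exact ih l h1 (by omega)
    rw [this]
    simp [A]

lemma d_self (n : ℕ) : s.d n n = 1 := by
  rw [s.d_eq, if_pos rfl]
  have : s.A (s.d n) n = s.A 0 n := by
    apply s.A_congr
    intro l hl
    exact s.d_zero_of_lt (s.lt_of_mem hl)
  rw [this]
  simp [A]

lemma d_zero_of_m {n q : ℕ} (h : n < s.m q) : s.d n q = 0 := by
  induction q using Nat.strong_induction_on with
  | _ q ih =>
    have hq := s.m_le q
    rw [s.d_eq, if_neg (by omega), zero_add]
    have : s.A (s.d n) q = s.A 0 q := by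
      apply s.A_congr
      intro l hl
      have h1 := s.m_le_m hl
      exact ih l (s.lt_of_mem hl) (by omega)
    rw [this]
    simp [A]

lemma d_of_gt {n q : ℕ} (h : n < q) : s.d n q = s.A (s.d n) q := by
  rw [s.d_eq n q, if_neg (by omega), zero_add]

/-- Signed sums of the `d n` over a family with common children are bounded by one. -/
lemma sum_d_le {S₀ : Finset ℕ} (F : Finset ℕ) (hF : ∀ n ∈ F, s.S n = S₀) (σ : ℕ → ℝ)
    (hσ : ∀ n, |σ n| ≤ 1) (q : ℕ) : |∑ n ∈ F, σ n * s.d n q| ≤ 1 := by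
  classical
  induction q using Nat.strong_induction_on with
  | _ q ih =>
    have h1 : ∑ n ∈ F, σ n * s.d n q =
        (if q ∈ F then σ q else 0) + s.A (fun p => ∑ n ∈ F, σ n * s.d n p) q := by
      have h2 : ∀ n ∈ F, σ n * s.d n q = (if q = n then σ n else 0) + σ n * s.A (s.d n) q := by
        intro n _
        rw [s.d_eq n q]
        split_ifs <;> ring
      rw [Finset.sum_congr rfl h2, Finset.sum_add_distrib, Finset.sum_ite_eq]
      congr 1
      unfold A
      rw [Finset.sum_comm, Finset.sum_div]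
      apply Finset.sum_congr rfl
      intro n _
      rw [← Finset.mul_sum, mul_div_assoc]
    rw [h1]
    by_cases hq : q ∈ F
    · rw [if_pos hq]
      have h3 : s.A (fun p => ∑ n ∈ F, σ n * s.d n p) q = s.A 0 q := by
        apply s.A_congr
        intro l hl
        apply Finset.sum_eq_zero
        intro n hn
        rw [hF q hq, ← hF n hn] at hl
        rw [s.d_zero_of_lt (s.lt_of_mem hl), mul_zero]
      rw [h3]
      have h4 : s.A 0 q = 0 := by simp [A]
      rw [h4, add_zero]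
      exact hσ q
    · rw [if_neg hq, zero_add]
      exact s.A_le zero_le_one (fun l hl => ih l (s.lt_of_mem hl))

lemma d_le (n q : ℕ) : |s.d n q| ≤ 1 := by
  have := s.sum_d_le (S₀ := s.S n) {n} (by simp) (fun _ => 1) (by simp) q
  simpa using this

lemma d_mem (n : ℕ) : s.Mem (s.d n) := by
  constructor
  · apply tendsto_const_nhds.congr'
    filter_upwards [eventually_gt_atTop n] with q hq
    rw [s.d_of_gt hq]
    ring
  · apply tendsto_const_nhds.congr'
    filter_upwards [eventually_gt_atTop n] with r hr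
    apply le_antisymm (s.Wt_nonneg _ _)
    apply s.Wt_le le_rfl
    intro q hq
    rw [s.d_zero_of_m (by omega)]
    simp

/-- The vectors `d n` as elements of the space. -/
noncomputable def D (n : ℕ) : s.X := ⟨mkB (s.d n) 1 (s.d_le n), s.d_mem n⟩

lemma D_apply (n q : ℕ) : (s.D n : ℕ →ᵇ ℝ) q = s.d n q := rfl

lemma norm_D_le (n : ℕ) : ‖s.D n‖ ≤ 1 := by
  have : ‖s.D n‖ = ‖(s.D n : ℕ →ᵇ ℝ)‖ := rfl
  rw [this]
  exact b_norm_le zero_le_one (fun q => s.d_le n q)

lemma coe_sum_apply (F : Finset ℕ) (x : ℕ → s.X) (q : ℕ) :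
    ((∑ n ∈ F, x n : s.X) : ℕ →ᵇ ℝ) q = ∑ n ∈ F, (x n : ℕ →ᵇ ℝ) q := by
  classical
  induction F using Finset.induction_on with
  | empty => simp
  | insert a t ha ih =>
    rw [Finset.sum_insert ha, Finset.sum_insert ha, ← ih]
    rfl

/-- A functional is small on all but finitely many of the `D n` with common children. -/
lemma finite_large {S₀ : Finset ℕ} (φ : s.X → ℝ) (hadd : ∀ (F : Finset ℕ) (c : ℕ → ℝ),
    φ (∑ n ∈ F, c n • s.D n) = ∑ n ∈ F, c n * φ (s.D n)) {C : ℝ} (hφ : ∀ x, |φ x| ≤ C * ‖x‖)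
    (hC : 0 ≤ C) {ε : ℝ} (hε : 0 < ε) : {n | s.S n = S₀ ∧ ε < |φ (s.D n)|}.Finite := by
  classical
  by_contra hinf
  obtain ⟨c, hc⟩ := exists_nat_gt (C / ε)
  obtain ⟨F, hF, hcard⟩ := Set.Infinite.exists_subset_card_eq hinf c
  set σ : ℕ → ℝ := fun n => if 0 ≤ φ (s.D n) then 1 else -1 with hσdef
  have hσ : ∀ n, |σ n| ≤ 1 := by
    intro n
    simp only [hσdef]
    split_ifs <;> simp
  have hσ' : ∀ n, σ n * φ (s.D n) = |φ (s.D n)| := by
    intro n
    simp only [hσdef]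
    split_ifs with h
    · rw [abs_of_nonneg h, one_mul]
    · rw [abs_of_neg (not_le.1 h)]; ring
  set x : s.X := ∑ n ∈ F, σ n • s.D n with hx
  have hxn : ‖x‖ ≤ 1 := by
    have h0 : ‖x‖ = ‖(x : ℕ →ᵇ ℝ)‖ := rfl
    rw [h0]
    apply b_norm_le zero_le_one
    intro q
    have h1 : (x : ℕ →ᵇ ℝ) q = ∑ n ∈ F, σ n * s.d n q := by
      rw [hx, s.coe_sum_apply]
      rfl
    rw [h1]
    exact s.sum_d_le F (fun n hn => (hF hn).1) σ hσ q
  have h2 : φ x = ∑ n ∈ F, |φ (s.D n)| := by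
    rw [hx, hadd]
    exact Finset.sum_congr rfl (fun n _ => hσ' n)
  have h3 : (c : ℝ) * ε ≤ φ x := by
    rw [h2]
    calc (c : ℝ) * ε = ∑ n ∈ F, ε := by rw [Finset.sum_const, hcard, nsmul_eq_mul]
      _ ≤ _ := Finset.sum_le_sum (fun n hn => (hF hn).2.le)
  have h4 := hφ x
  have h5 := le_abs_self (φ x)
  rw [div_lt_iff₀ hε] at hc
  have h6 : C * ‖x‖ ≤ C * 1 := mul_le_mul_of_nonneg_left hxn hC
  linarith

/-- Bounded linear maps to `c_0`, with a bound. -/
structure Op (s : Sys) where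
  T : s.X → C₀(ℕ, ℝ)
  bd : ℝ
  bd_nonneg : 0 ≤ bd
  map_add : ∀ x y, T (x + y) = T x + T y
  map_smul : ∀ (c : ℝ) x, T (c • x) = c • T x
  bound : ∀ x, ‖T x‖ ≤ bd * ‖x‖

lemma Op.map_zero {s : Sys} (T : s.Op) : T.T 0 = 0 := by
  have := T.map_smul 0 0
  rwa [zero_smul, zero_smul] at this

/-- One can add some `D n` with prescribed children almost without increasing the norm. -/
lemma exists_small (T : s.Op) {S₀ : Finset ℕ} {B : Set ℕ} (hB : B.Infinite)
    (hB' : ∀ n ∈ B, s.S n = S₀) (u : C₀(ℕ, ℝ)) {ε : ℝ} (hε : 0 < ε) (n₀ : ℕ) :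
    ∃ n ∈ B, n₀ < n ∧ ‖u + T.T (s.D n)‖ ≤ max ‖u‖ T.bd + ε := by
  classical
  obtain ⟨I, hI⟩ := Metric.tendsto_atTop.1 (c0_tendsto u) ε hε
  have hfin : ∀ i : ℕ, {n | s.S n = S₀ ∧ ε < |(T.T (s.D n)) i|}.Finite := by
    intro i
    apply s.finite_large (fun x => (T.T x) i) (C := T.bd)
    · intro F c
      have h1 : ∀ F : Finset ℕ, (T.T (∑ n ∈ F, c n • s.D n)) i = ∑ n ∈ F, c n * (T.T (s.D n)) i := by
        intro F
        induction F using Finset.induction_on with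
        | empty => rw [Finset.sum_empty, Finset.sum_empty, T.map_zero]; rfl
        | insert a t ha ih =>
          rw [Finset.sum_insert ha, Finset.sum_insert ha, ← ih, T.map_add, T.map_smul]
          rfl
      exact h1 F
    · intro x
      exact (c0_abs_le (T.T x) i).trans (T.bound x)
    · exact T.bd_nonneg
    · exact hε
  have hfin' : (⋃ i ∈ Finset.range I, {n | s.S n = S₀ ∧ ε < |(T.T (s.D n)) i|}).Finite := by
    apply Set.Finite.biUnion (Finset.finite_toSet _)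
    intro i _
    exact hfin i
  have hfin'' : (Set.Iic n₀).Finite := Set.finite_Iic n₀
  obtain ⟨n, hn, hn'⟩ := (hB.sdiff (hfin'.union hfin'')).nonempty
  refine ⟨n, hn, ?_, ?_⟩
  · by_contra hcon
    exact hn' (Or.inr (not_lt.1 hcon))
  · have hT : ‖T.T (s.D n)‖ ≤ T.bd := by
      have h1 := T.bound (s.D n)
      have h2 := s.norm_D_le n
      calc _ ≤ T.bd * ‖s.D n‖ := h1
        _ ≤ T.bd * 1 := mul_le_mul_of_nonneg_left h2 T.bd_nonneg
        _ = _ := mul_one _
    have hm1 := le_max_left ‖u‖ T.bd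
    have hm2 := le_max_right ‖u‖ T.bd
    apply c0_norm_le (by have := norm_nonneg u; linarith)
    intro i
    have h1 : (u + T.T (s.D n)) i = u i + (T.T (s.D n)) i := rfl
    rw [h1]
    have h2 := abs_add_le (u i) ((T.T (s.D n)) i)
    have h3 := c0_abs_le u i
    have h4 := c0_abs_le (T.T (s.D n)) i
    by_cases hi : i < I
    · have h5 : |(T.T (s.D n)) i| ≤ ε := by
        by_contra hcon
        apply hn'
        left
        simp only [Set.mem_iUnion]
        exact ⟨i, Finset.mem_range.2 hi, hB' n hn, not_le.1 hcon⟩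
      linarith
    · have h5 := hI i (by omega)
      rw [Real.dist_eq, sub_zero] at h5
      linarith

/-- Sequences which live in the time interval `[a, M]`. -/
def Block (a M : ℕ) (x : ℕ → ℝ) : Prop :=
  (∀ q, q < a → x q = 0) ∧ (∀ q, M < s.m q → x q = 0) ∧ (∀ q, M < q → x q = s.A x q)

lemma block_d (n : ℕ) : s.Block n n (s.d n) :=
  ⟨fun _ h => s.d_zero_of_lt h, fun _ h => s.d_zero_of_m h, fun _ h => s.d_of_gt h⟩

lemma Block.add {s : Sys} {a M a' M' : ℕ} {x x' : ℕ → ℝ} (h : s.Block a M x) (h' : s.Block a' M' x')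
    (ha : a ≤ a') (hM : M ≤ M') : s.Block a M' (x + x') := by
  obtain ⟨h1, h2, h3⟩ := h
  obtain ⟨k1, k2, k3⟩ := h'
  refine ⟨?_, ?_, ?_⟩
  · intro q hq
    rw [Pi.add_apply, h1 q hq, k1 q (by omega), add_zero]
  · intro q hq
    rw [Pi.add_apply, h2 q (by omega), k2 q hq, add_zero]
  · intro q hq
    rw [Pi.add_apply, s.A_add, h3 q (by omega), k3 q hq]

/-- The induction statement. -/
def Q (T : s.Op) (j : ℕ) : Prop :=
  ∀ (u : C₀(ℕ, ℝ)) (ε : ℝ), 0 < ε → ∀ n₀ : ℕ, ∃ (γ : ℕ) (x : s.X), n₀ < s.m γ ∧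
    s.Block (s.m γ) γ (x : ℕ →ᵇ ℝ) ∧ (x : ℕ →ᵇ ℝ) γ = j + 1 ∧ ‖u + T.T x‖ ≤ max ‖u‖ T.bd + ε

lemma Q_zero (T : s.Op) : s.Q T 0 := by
  intro u ε hε n₀
  have hinf : {n | s.S n = ∅}.Infinite := by
    rw [Set.infinite_iff_exists_gt]
    intro a
    obtain ⟨n, hn, hn'⟩ := s.basic a
    exact ⟨n, hn', hn⟩
  obtain ⟨n, hn, hn1, hn2⟩ := s.exists_small T hinf (S₀ := ∅) (fun n hn => hn) u hε n₀
  have hm : s.m n = n := s.m_basic hn
  refine ⟨n, s.D n, ?_, ?_, ?_, hn2⟩
  · rw [hm]; exact hn1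
  · rw [hm]; exact s.block_d n
  · rw [s.D_apply, s.d_self]; norm_num

/-- Chains of blocks. -/
lemma chain (T : s.Op) {j : ℕ} (hQ : s.Q T j) (u : C₀(ℕ, ℝ)) {ε₁ : ℝ}
    (_hε₁ : 0 < ε₁) (γ₁ : ℕ) (x₁ : s.X) (hx₁ : s.Block (s.m γ₁) γ₁ (x₁ : ℕ →ᵇ ℝ))
    (hx₁' : (x₁ : ℕ →ᵇ ℝ) γ₁ = j + 1) (hu : ‖u + T.T x₁‖ ≤ max ‖u‖ T.bd + ε₁) (c : ℕ) :
    ∀ ε : ℝ, 0 < ε → ∃ (B : Finset ℕ) (x : s.X) (M : ℕ), B.card = c + 1 ∧ γ₁ ∈ B ∧
      (∀ l ∈ B, γ₁ ≤ l) ∧ (∀ l ∈ B, l ≤ M) ∧ (∀ l ∈ B, ∀ l' ∈ B, l < l' → l < s.m l') ∧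
      s.Block (s.m γ₁) M (x : ℕ →ᵇ ℝ) ∧ (∀ l ∈ B, (x : ℕ →ᵇ ℝ) l = j + 1) ∧
      ‖u + T.T x‖ ≤ max ‖u‖ T.bd + ε₁ + ε := by
  classical
  induction c with
  | zero =>
    intro ε hε
    refine ⟨{γ₁}, x₁, γ₁, by simp, by simp, by simp, by simp, ?_, hx₁, ?_, by linarith⟩
    · intro l hl l' hl' hll
      rw [Finset.mem_singleton] at hl hl'
      omega
    · intro l hl
      rw [Finset.mem_singleton] at hl
      rw [hl]; exact hx₁'
  | succ c ih =>
    intro ε hε
    obtain ⟨B, x, M, hcard, hmem, hmin, hmax, hsucc, hblock, hval, hnorm⟩ := ih (ε / 2) (by positivity)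
    obtain ⟨γ, y, hγ, hyblock, hyval, hynorm⟩ := hQ (u + T.T x) (ε / 2) (by positivity) M
    have hγm := s.m_le γ
    have hγ₁M : γ₁ ≤ M := hmax γ₁ hmem
    have hγ₁m := s.m_le γ₁
    have hγB : γ ∉ B := by
      intro h
      have := hmax γ h
      omega
    refine ⟨insert γ B, x + y, γ, ?_, ?_, ?_, ?_, ?_, ?_, ?_, ?_⟩
    · rw [Finset.card_insert_of_notMem hγB, hcard]
    · exact Finset.mem_insert_of_mem hmem
    · intro l hl
      rcases Finset.mem_insert.1 hl with h | h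
      · omega
      · exact hmin l h
    · intro l hl
      rcases Finset.mem_insert.1 hl with h | h
      · omega
      · have := hmax l h
        omega
    · intro l hl l' hl' hll
      rcases Finset.mem_insert.1 hl with h | h
      · rcases Finset.mem_insert.1 hl' with h' | h'
        · omega
        · have := hmax l' h'
          omega
      · rcases Finset.mem_insert.1 hl' with h' | h'
        · have := hmax l h
          rw [h']; omega
        · exact hsucc l h l' h' hll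
    · exact hblock.add hyblock (by omega) (by omega)
    · intro l hl
      have h0 : ((x + y : s.X) : ℕ →ᵇ ℝ) l = (x : ℕ →ᵇ ℝ) l + (y : ℕ →ᵇ ℝ) l := rfl
      rw [h0]
      rcases Finset.mem_insert.1 hl with h | h
      · rw [h, hyval, hblock.2.1 γ hγ, zero_add]
      · have := hmax l h
        rw [hval l h, hyblock.1 l (by omega), add_zero]
    · rw [T.map_add, ← add_assoc]
      have h1 : max ‖u + T.T x‖ T.bd ≤ max ‖u‖ T.bd + ε₁ + ε / 2 := by
        apply max_le hnorm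
        have := le_max_right ‖u‖ T.bd
        linarith
      linarith

lemma Q_succ (T : s.Op) {j : ℕ} (hQ : s.Q T j) : s.Q T (j + 1) := by
  classical
  intro u ε hε n₀
  obtain ⟨γ₁, x₁, hγ₁, hblock₁, hval₁, hnorm₁⟩ := hQ u (ε / 4) (by positivity) n₀
  have hK := K_pos (s.m γ₁)
  obtain ⟨B, x, M, hcard, hmem, hmin, hmax, hsucc, hblock, hval, hnorm⟩ :=
    s.chain T hQ u (ε₁ := ε / 4) (by positivity) γ₁ x₁ hblock₁ hval₁ hnorm₁ (K (s.m γ₁) - 1)
      (ε / 4) (by positivity)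
  have hcard' : B.card = K (s.m γ₁) := by omega
  have hinf : {n | s.S n = B ∧ s.m n = s.m γ₁}.Infinite := by
    rw [Set.infinite_iff_exists_gt]
    intro a
    obtain ⟨n, hn, hn1, hn2⟩ := s.rich B hsucc γ₁ hmem hmin hcard' a
    exact ⟨n, ⟨hn1, hn2⟩, hn⟩
  obtain ⟨n, hn, hn1, hn2⟩ := s.exists_small T hinf (S₀ := B) (fun n hn => hn.1) (u + T.T x)
    (ε := ε / 4) (by positivity) M
  obtain ⟨hS, hm⟩ := hn
  refine ⟨n, x + s.D n, ?_, ?_, ?_, ?_⟩
  · rw [hm]; exact hγ₁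
  · rw [hm]
    have h1 := hmax γ₁ hmem
    have h2 := s.m_le γ₁
    exact hblock.add (s.block_d n) (by omega) (by omega)
  · have h0 : ((x + s.D n : s.X) : ℕ →ᵇ ℝ) n = (x : ℕ →ᵇ ℝ) n + s.d n n := rfl
    rw [h0, s.d_self, hblock.2.2 n hn1]
    have h1 : s.A (x : ℕ →ᵇ ℝ) n = j + 1 := by
      have hpos : (0 : ℝ) < K (s.m γ₁) := by exact_mod_cast hK
      unfold A
      rw [hS, Finset.sum_congr rfl hval, Finset.sum_const, nsmul_eq_mul, hcard']
      field_simp
    rw [h1]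
    push_cast
    ring
  · rw [T.map_add, ← add_assoc]
    have h1 : max ‖u + T.T x‖ T.bd ≤ max ‖u‖ T.bd + ε / 4 + ε / 4 := by
      apply max_le hnorm
      have := le_max_right ‖u‖ T.bd
      linarith
    linarith

lemma Q_all (T : s.Op) (j : ℕ) : s.Q T j := by
  induction j with
  | zero => exact s.Q_zero T
  | succ j ih => exact s.Q_succ T ih

/-- The space does not embed isomorphically into `c_0`. -/
theorem not_embed (T : s.Op) (C : ℝ) (hT : ∀ x, ‖x‖ ≤ C * ‖T.T x‖) : False := by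
  have hC : ∀ j : ℕ, (j : ℝ) + 1 ≤ |C| * (T.bd + 1) := by
    intro j
    obtain ⟨γ, x, _, _, hval, hnorm⟩ := s.Q_all T j 0 1 one_pos 0
    rw [zero_add, norm_zero, max_eq_right T.bd_nonneg] at hnorm
    have h1 := b_abs_le (x : ℕ →ᵇ ℝ) γ
    rw [hval] at h1
    have h2 : ‖x‖ = ‖(x : ℕ →ᵇ ℝ)‖ := rfl
    have h3 := hT x
    have h4 := le_abs_self ((j : ℝ) + 1)
    calc (j : ℝ) + 1 ≤ ‖x‖ := by rw [h2]; linarith
      _ ≤ C * ‖T.T x‖ := h3
      _ ≤ |C| * ‖T.T x‖ := mul_le_mul_of_nonneg_right (le_abs_self C) (norm_nonneg _)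
      _ ≤ |C| * (T.bd + 1) := mul_le_mul_of_nonneg_left hnorm (abs_nonneg _)
  obtain ⟨j, hj⟩ := exists_nat_gt (|C| * (T.bd + 1))
  have := hC j
  linarith

/-- A continuous homogeneous map is bounded. -/
lemma bound_of_continuous {E F : Type} [NormedAddCommGroup E] [NormedSpace ℝ E]
    [NormedAddCommGroup F] [NormedSpace ℝ F] (g : E → F) (hg : Continuous g)
    (hsmul : ∀ (c : ℝ) x, g (c • x) = c • g x) : ∃ C : ℝ, 0 ≤ C ∧ ∀ x, ‖g x‖ ≤ C * ‖x‖ := by
  have h0 : g 0 = 0 := by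
    have := hsmul 0 0
    rwa [zero_smul, zero_smul] at this
  obtain ⟨δ, hδ, h⟩ := Metric.continuousAt_iff.1 (hg.continuousAt (x := 0)) 1 one_pos
  refine ⟨2 / δ, by positivity, fun x => ?_⟩
  rcases eq_or_ne x 0 with hx | hx
  · rw [hx, h0]; simp
  have hx' : 0 < ‖x‖ := norm_pos_iff.2 hx
  set c : ℝ := δ / (2 * ‖x‖) with hc
  have hc0 : 0 < c := by positivity
  have h1 : dist (c • x) 0 < δ := by
    rw [dist_zero_right, norm_smul, Real.norm_eq_abs, abs_of_pos hc0, hc]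
    have : δ / (2 * ‖x‖) * ‖x‖ = δ / 2 := by field_simp
    rw [this]; linarith
  have h2 := h h1
  rw [h0, dist_zero_right, hsmul, norm_smul, Real.norm_eq_abs, abs_of_pos hc0] at h2
  have h3 : 2 / δ * ‖x‖ = 1 / c := by
    rw [hc]; field_simp
  rw [h3, le_div_iff₀ hc0]
  linarith

/-- The space is not isomorphic to `c_0`. -/
theorem not_iso : ¬ Nonempty (s.X ≃L[ℝ] C₀(ℕ, ℝ)) := by
  rintro ⟨e⟩
  obtain ⟨C, hC0, hC⟩ := bound_of_continuous (fun x => e x) e.continuous (fun c x => map_smul e c x)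
  obtain ⟨C', hC0', hC'⟩ := bound_of_continuous (fun x => e.symm x) e.symm.continuous
    (fun c x => map_smul e.symm c x)
  let T : s.Op := ⟨fun x => e x, C, hC0, fun x y => map_add e x y, fun c x => map_smul e c x, hC⟩
  apply s.not_embed T C'
  intro x
  have h1 := hC' (e x)
  rw [e.symm_apply_apply] at h1
  exact h1

end Sys

end Pool.Agent.helper380_c0
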