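import Pool.Agent.helper380_c0.Comb

/-! Averages, later parts and the damped maps (helper380, MP_fddf76_an). -/

set_option autoImplicit false

namespace Pool.Agent.helper380_c0

/-- The damping function: `a` minus half of the truncation of `a` at level `w`. -/
noncomputable def H (a w : ℝ) : ℝ := a - max (-w) (min w a) / 2

lemma H_cases {a w : ℝ} (hw : 0 ≤ w) :
    (a ≤ -w ∧ H a w = a + w / 2) ∨ (-w ≤ a ∧ a ≤ w ∧ H a w = a / 2) ∨ (w ≤ a ∧ H a w = a - w / 2) := by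
  unfold H
  rcases le_total a (-w) with h1 | h1
  · left
    refine ⟨h1, ?_⟩
    rw [min_eq_right (by linarith), max_eq_left h1]
    ring
  · rcases le_total a w with h2 | h2
    · right; left
      refine ⟨h1, h2, ?_⟩
      rw [min_eq_right h2, max_eq_right h1]
      ring
    · right; right
      refine ⟨h2, ?_⟩
      rw [min_eq_left h2, max_eq_right (by linarith)]

lemma H_zero_left {w : ℝ} (hw : 0 ≤ w) : H 0 w = 0 := by
  rcases H_cases (a := 0) hw with ⟨h1, h2⟩ | ⟨h1, h2, h3⟩ | ⟨h1, h2⟩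
  · rw [h2]; linarith
  · rw [h3]; norm_num
  · rw [h2]; linarith

lemma H_zero_right (a : ℝ) : H a 0 = a := by
  rcases H_cases (a := a) (le_refl 0) with ⟨h1, h2⟩ | ⟨h1, h2, h3⟩ | ⟨h1, h2⟩
  · rw [h2]; ring
  · rw [h3]; linarith
  · rw [h2]; ring

lemma H_abs_le {a w : ℝ} (hw : 0 ≤ w) : |H a w| ≤ |a| := by
  rcases H_cases (a := a) hw with ⟨h1, h2⟩ | ⟨h1, h2, h3⟩ | ⟨h1, h2⟩
  · rw [h2, abs_le]
    have : |a| = -a := abs_of_nonpos (by linarith)
    constructor <;> linarith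
  · rw [h3, abs_div]
    have : |(2 : ℝ)| = 2 := by norm_num
    rw [this]
    linarith [abs_nonneg a]
  · rw [h2, abs_le]
    have : |a| = a := abs_of_nonneg (by linarith)
    constructor <;> linarith

lemma H_half {a w e : ℝ} (hw : 0 ≤ w) (he : 0 ≤ e) (h : |a| ≤ w + e) : |H a w - a / 2| ≤ e / 2 := by
  have h' := abs_le.1 h
  rcases H_cases (a := a) hw with ⟨h1, h2⟩ | ⟨h1, h2, h3⟩ | ⟨h1, h2⟩
  · rw [h2, abs_le]; constructor <;> linarith
  · rw [h3, sub_self, abs_zero]; linarith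
  · rw [h2, abs_le]; constructor <;> linarith

lemma H_sub_self {a w : ℝ} (hw : 0 ≤ w) : |H a w - a| ≤ w / 2 := by
  rcases H_cases (a := a) hw with ⟨h1, h2⟩ | ⟨h1, h2, h3⟩ | ⟨h1, h2⟩
  · rw [h2, abs_le]; constructor <;> linarith
  · rw [h3, abs_le]; constructor <;> linarith
  · rw [h2, abs_le]; constructor <;> linarith

lemma H_lip_left {a b w : ℝ} (hw : 0 ≤ w) : |H a w - H b w| ≤ |a - b| := by
  rcases le_total a b with hab | hab
  · rw [abs_of_nonpos (show a - b ≤ 0 by linarith)]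
    rcases H_cases (a := a) hw with ⟨h1, h2⟩ | ⟨h1, h2, h3⟩ | ⟨h1, h2⟩ <;>
    rcases H_cases (a := b) hw with ⟨k1, k2⟩ | ⟨k1, k2, k3⟩ | ⟨k1, k2⟩ <;>
    · rw [abs_le]; constructor <;> linarith
  · rw [abs_of_nonneg (show 0 ≤ a - b by linarith)]
    rcases H_cases (a := a) hw with ⟨h1, h2⟩ | ⟨h1, h2, h3⟩ | ⟨h1, h2⟩ <;>
    rcases H_cases (a := b) hw with ⟨k1, k2⟩ | ⟨k1, k2, k3⟩ | ⟨k1, k2⟩ <;>
    · rw [abs_le]; constructor <;> linarith

lemma H_lip_right {a w v : ℝ} (hw : 0 ≤ w) (hv : 0 ≤ v) : |H a w - H a v| ≤ |w - v| / 2 := by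
  rcases le_total w v with hab | hab
  · rw [abs_of_nonpos (show w - v ≤ 0 by linarith)]
    rcases H_cases (a := a) hw with ⟨h1, h2⟩ | ⟨h1, h2, h3⟩ | ⟨h1, h2⟩ <;>
    rcases H_cases (a := a) hv with ⟨k1, k2⟩ | ⟨k1, k2, k3⟩ | ⟨k1, k2⟩ <;>
    · rw [abs_le]; constructor <;> linarith
  · rw [abs_of_nonneg (show 0 ≤ w - v by linarith)]
    rcases H_cases (a := a) hw with ⟨h1, h2⟩ | ⟨h1, h2, h3⟩ | ⟨h1, h2⟩ <;>
    rcases H_cases (a := a) hv with ⟨k1, k2⟩ | ⟨k1, k2, k3⟩ | ⟨k1, k2⟩ <;>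
    · rw [abs_le]; constructor <;> linarith

lemma H_lip {a b w v : ℝ} (hw : 0 ≤ w) (hv : 0 ≤ v) :
    |H a w - H b v| ≤ |a - b| + |w - v| / 2 := by
  have h1 := H_lip_left (a := a) (b := b) hw
  have h2 := H_lip_right (a := b) hw hv
  calc |H a w - H b v| = |(H a w - H b w) + (H b w - H b v)| := by ring_nf
    _ ≤ |H a w - H b w| + |H b w - H b v| := abs_add_le _ _
    _ ≤ _ := by linarith

lemma H_mul {a w c : ℝ} (hc : 0 ≤ c) : H (c * a) (c * w) = c * H a w := by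
  unfold H
  rw [← mul_neg, ← mul_min_of_nonneg _ _ hc, ← mul_max_of_nonneg _ _ hc]
  ring

namespace Sys

variable (s : Sys)

/-- The average of `x` over the children of `n` (zero if `n` is basic). -/
noncomputable def A (x : ℕ → ℝ) (n : ℕ) : ℝ := (∑ l ∈ s.S n, x l) / ((s.S n).card : ℝ)

/-- The size of the part of `x` which lives from time `r` on. -/
noncomputable def Wt (x : ℕ → ℝ) (r : ℕ) : ℝ := ⨆ q : {q : ℕ // r ≤ s.m q}, |x q|

/-- The damped map. -/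
noncomputable def f (χ : ℕ → ℝ) (x : ℕ → ℝ) (n : ℕ) : ℝ :=
  x n - χ n * H (s.A x n) (s.Wt x (n + 1))

lemma A_basic {x : ℕ → ℝ} {n : ℕ} (h : s.S n = ∅) : s.A x n = 0 := by
  simp [A, h]

lemma A_le {x : ℕ → ℝ} {n : ℕ} {c : ℝ} (hc : 0 ≤ c) (h : ∀ l ∈ s.S n, |x l| ≤ c) :
    |s.A x n| ≤ c := by
  unfold A
  rcases (s.S n).eq_empty_or_nonempty with h0 | h0
  · simpa [h0] using hc
  · have hk : (0 : ℝ) < (s.S n).card := by exact_mod_cast h0.card_pos
    rw [abs_div, abs_of_pos hk, div_le_iff₀ hk]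
    calc |∑ l ∈ s.S n, x l| ≤ ∑ l ∈ s.S n, |x l| := Finset.abs_sum_le_sum_abs _ _
      _ ≤ ∑ l ∈ s.S n, c := Finset.sum_le_sum h
      _ = c * (s.S n).card := by rw [Finset.sum_const, nsmul_eq_mul, mul_comm]

lemma A_sub (x y : ℕ → ℝ) (n : ℕ) : s.A x n - s.A y n = s.A (x - y) n := by
  unfold A
  rw [← sub_div, ← Finset.sum_sub_distrib]
  rfl

lemma A_add (x y : ℕ → ℝ) (n : ℕ) : s.A (x + y) n = s.A x n + s.A y n := by
  unfold A
  rw [← add_div, ← Finset.sum_add_distrib]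
  rfl

lemma A_smul (c : ℝ) (x : ℕ → ℝ) (n : ℕ) : s.A (c • x) n = c * s.A x n := by
  unfold A
  rw [← mul_div_assoc, Finset.mul_sum]
  rfl

lemma A_congr {x y : ℕ → ℝ} {n : ℕ} (h : ∀ l ∈ s.S n, x l = y l) : s.A x n = s.A y n := by
  unfold A
  rw [Finset.sum_congr rfl h]

/-- Averages of bounds: if all children but those in `B` are bounded by `c`, and those in `B` by
`c + d`, then the average is at most `c + (card B) d / card`. -/
lemma A_le_of_split {x : ℕ → ℝ} {n : ℕ} {c d b : ℝ} (B : Finset ℕ) (hc : 0 ≤ c) (hd : 0 ≤ d)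
    (hb : 0 ≤ b) (hB : (B.card : ℝ) ≤ b * (s.S n).card)
    (h : ∀ l ∈ s.S n, |x l| ≤ c + if l ∈ B then d else 0) :
    |s.A x n| ≤ c + b * d := by
  unfold A
  rcases (s.S n).eq_empty_or_nonempty with h0 | h0
  · simp [h0]; positivity
  · have hk : (0 : ℝ) < (s.S n).card := by exact_mod_cast h0.card_pos
    rw [abs_div, abs_of_pos hk, div_le_iff₀ hk]
    calc |∑ l ∈ s.S n, x l| ≤ ∑ l ∈ s.S n, |x l| := Finset.abs_sum_le_sum_abs _ _
      _ ≤ ∑ l ∈ s.S n, (c + if l ∈ B then d else 0) := Finset.sum_le_sum h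
      _ = (s.S n).card * c + ∑ l ∈ s.S n, (if l ∈ B then d else 0) := by
          rw [Finset.sum_add_distrib, Finset.sum_const, nsmul_eq_mul]
      _ ≤ (s.S n).card * c + B.card * d := by
          have : ∑ l ∈ s.S n, (if l ∈ B then d else 0) ≤ B.card * d := by
            rw [← Finset.sum_filter, Finset.sum_const, nsmul_eq_mul]
            apply mul_le_mul_of_nonneg_right _ hd
            norm_cast
            apply Finset.card_le_card
            intro l hl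
            exact (Finset.mem_filter.1 hl).2
          linarith
      _ ≤ (s.S n).card * c + (b * (s.S n).card) * d := by
          have := mul_le_mul_of_nonneg_right hB hd
          linarith
      _ = (c + b * d) * (s.S n).card := by ring

lemma Wt_nonneg (x : ℕ → ℝ) (r : ℕ) : 0 ≤ s.Wt x r :=
  Real.iSup_nonneg (fun q => abs_nonneg _)

lemma Wt_le {x : ℕ → ℝ} {r : ℕ} {c : ℝ} (hc : 0 ≤ c) (h : ∀ q, r ≤ s.m q → |x q| ≤ c) :
    s.Wt x r ≤ c :=
  Real.iSup_le (fun q => h q.1 q.2) hc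

lemma le_Wt {x : ℕ → ℝ} {R : ℝ} (hx : ∀ n, |x n| ≤ R) {r q : ℕ} (h : r ≤ s.m q) :
    |x q| ≤ s.Wt x r := by
  have hb : BddAbove (Set.range fun q : {q : ℕ // r ≤ s.m q} => |x q|) :=
    ⟨R, by rintro _ ⟨q, rfl⟩; exact hx q⟩
  exact le_ciSup (f := fun q : {q : ℕ // r ≤ s.m q} => |x q|) hb ⟨q, h⟩

lemma Wt_sub_le {x y : ℕ → ℝ} {R R' c : ℝ} (hx : ∀ n, |x n| ≤ R) (hy : ∀ n, |y n| ≤ R') {r : ℕ}
    (hc : 0 ≤ c) (h : ∀ q, r ≤ s.m q → |x q - y q| ≤ c) : |s.Wt x r - s.Wt y r| ≤ c := by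
  rw [abs_le]
  constructor
  · have : s.Wt y r ≤ s.Wt x r + c := by
      apply s.Wt_le (add_nonneg (s.Wt_nonneg x r) hc)
      intro q hq
      have h1 := s.le_Wt hx hq
      have h2 := h q hq
      have h3 : |y q| ≤ |x q| + |x q - y q| := by
        have := abs_sub_abs_le_abs_sub (y q) (x q)
        rw [abs_sub_comm] at this
        linarith
      linarith
    linarith
  · have : s.Wt x r ≤ s.Wt y r + c := by
      apply s.Wt_le (add_nonneg (s.Wt_nonneg y r) hc)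
      intro q hq
      have h1 := s.le_Wt hy hq
      have h2 := h q hq
      have h3 : |x q| ≤ |y q| + |x q - y q| := by
        have := abs_sub_abs_le_abs_sub (x q) (y q)
        linarith
      linarith
    linarith

lemma Wt_mono {x : ℕ → ℝ} {R : ℝ} (hx : ∀ n, |x n| ≤ R) {r r' : ℕ} (h : r ≤ r') :
    s.Wt x r' ≤ s.Wt x r :=
  s.Wt_le (s.Wt_nonneg x r) (fun _ hq => s.le_Wt hx (h.trans hq))

lemma Wt_smul {c : ℝ} (hc : 0 ≤ c) (x : ℕ → ℝ) (r : ℕ) : s.Wt (c • x) r = c * s.Wt x r := by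
  unfold Wt
  rw [Real.mul_iSup_of_nonneg hc]
  congr 1
  ext q
  simp [abs_mul, abs_of_nonneg hc]

lemma K_le_card {n : ℕ} (h : (s.S n).Nonempty) : (K (s.m n) : ℝ) = (s.S n).card := by
  rw [s.card_eq h]

/-- The later part of a child dominates the averages of the following children. -/
lemma A_le_Wt {x : ℕ → ℝ} {R : ℝ} (hx : ∀ n, |x n| ≤ R) {l l' : ℕ} (h : l < s.m l') :
    |s.A x l'| ≤ s.Wt x (l + 1) := by
  apply s.A_le (s.Wt_nonneg x _)
  intro c hc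
  apply s.le_Wt hx
  have := s.m_le_m hc
  omega

/-- Homogeneity of the damped maps. -/
lemma f_smul {c : ℝ} (hc : 0 ≤ c) (χ x : ℕ → ℝ) (n : ℕ) : s.f χ (c • x) n = c * s.f χ x n := by
  unfold f
  rw [s.A_smul, s.Wt_smul hc, H_mul hc]
  simp
  ring

/-- The damped maps are Lipschitz. -/
lemma f_lip {χ x y : ℕ → ℝ} {R d : ℝ} (hχ : ∀ n, |χ n| ≤ 1) (hx : ∀ n, |x n| ≤ R)
    (hy : ∀ n, |y n| ≤ R) (hd : 0 ≤ d) (h : ∀ n, |x n - y n| ≤ d) (n : ℕ) :
    |s.f χ x n - s.f χ y n| ≤ 5 / 2 * d := by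
  have h1 : |s.A x n - s.A y n| ≤ d := by
    rw [s.A_sub]
    exact s.A_le hd (fun l _ => h l)
  have h2 : |s.Wt x (n + 1) - s.Wt y (n + 1)| ≤ d := s.Wt_sub_le hx hy hd (fun q _ => h q)
  have h3 := H_lip (a := s.A x n) (b := s.A y n) (s.Wt_nonneg x (n + 1)) (s.Wt_nonneg y (n + 1))
  have h4 : |χ n * (H (s.A x n) (s.Wt x (n + 1)) - H (s.A y n) (s.Wt y (n + 1)))| ≤ 3 / 2 * d := by
    rw [abs_mul]
    have h5 := abs_nonneg (H (s.A x n) (s.Wt x (n + 1)) - H (s.A y n) (s.Wt y (n + 1)))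
    have h6 := hχ n
    calc _ ≤ 1 * |H (s.A x n) (s.Wt x (n + 1)) - H (s.A y n) (s.Wt y (n + 1))| :=
          mul_le_mul_of_nonneg_right h6 h5
      _ ≤ _ := by linarith
  have h7 : s.f χ x n - s.f χ y n = (x n - y n) -
      χ n * (H (s.A x n) (s.Wt x (n + 1)) - H (s.A y n) (s.Wt y (n + 1))) := by
    unfold f; ring
  rw [h7]
  have h8 := abs_sub (x n - y n)
      (χ n * (H (s.A x n) (s.Wt x (n + 1)) - H (s.A y n) (s.Wt y (n + 1))))
  have h9 := h n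
  linarith

end Sys

end Pool.Agent.helper380_c0
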