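import Mathlib

/-! Combinatorial structure of the index set of the space (helper380, MP_fddf76_an). -/

set_option autoImplicit false

namespace Pool.Agent.helper380_c0

/-- The number of children of an index whose time interval starts at `n`. -/
def K (n : ℕ) : ℕ := 16 ^ (n + 2)

lemma K_mono {a b : ℕ} (h : a ≤ b) : K a ≤ K b :=
  Nat.pow_le_pow_right (by norm_num) (by omega)

lemma K_pos (n : ℕ) : 0 < K n := Nat.pow_pos (by norm_num)

/-- The combinatorial data: `S n` is the finite set of children of `n` (empty for basic `n`),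
and `m n` is the beginning of the time interval `[m n, n]` of `n`. -/
structure Sys where
  S : ℕ → Finset ℕ
  m : ℕ → ℕ
  lt_of_mem : ∀ {n l : ℕ}, l ∈ S n → l < n
  succ : ∀ {n l l' : ℕ}, l ∈ S n → l' ∈ S n → l < l' → l < m l'
  card_eq : ∀ {n : ℕ}, (S n).Nonempty → (S n).card = K (m n)
  m_le_m : ∀ {n l : ℕ}, l ∈ S n → m n ≤ m l
  m_le : ∀ n : ℕ, m n ≤ n
  m_basic : ∀ {n : ℕ}, S n = ∅ → m n = n
  rich : ∀ L : Finset ℕ, (∀ l ∈ L, ∀ l' ∈ L, l < l' → l < m l') →
    ∀ l₀ ∈ L, (∀ l ∈ L, l₀ ≤ l) → L.card = K (m l₀) → ∀ N : ℕ, ∃ n, N < n ∧ S n = L ∧ m n = m l₀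
  basic : ∀ N : ℕ, ∃ n, N < n ∧ S n = ∅

namespace Build

/-- Every finite set of natural numbers is coded by infinitely many numbers. -/
noncomputable def cd (n : ℕ) : Finset ℕ := (Denumerable.eqv (Finset ℕ)).symm n.unpair.1

lemma cd_inf (L : Finset ℕ) (N : ℕ) : ∃ n, N < n ∧ cd n = L := by
  refine ⟨Nat.pair (Denumerable.eqv (Finset ℕ) L) (N + 1), ?_, ?_⟩
  · have := Nat.right_le_pair (Denumerable.eqv (Finset ℕ) L) (N + 1)
    omega
  · simp [cd]

/-- The conditions on the set coded by `n`. -/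
def Good (n : ℕ) (M : ℕ → ℕ) : Prop :=
  (cd n).Nonempty ∧ (∀ l ∈ cd n, l < n) ∧ (∀ l ∈ cd n, ∀ l' ∈ cd n, l < l' → l < M l') ∧
    (cd n).card = K (M (sInf (cd n : Set ℕ)))

lemma sInf_mem_cd {n : ℕ} (h : (cd n).Nonempty) : sInf (cd n : Set ℕ) ∈ cd n := by
  have : sInf (cd n : Set ℕ) ∈ (cd n : Set ℕ) := Nat.sInf_mem (by simpa using h)
  simpa using this

lemma Good.congr {n : ℕ} {M M' : ℕ → ℕ} (h : ∀ l < n, M l = M' l) (hG : Good n M) : Good n M' := by
  obtain ⟨h1, h2, h3, h4⟩ := hG
  refine ⟨h1, h2, ?_, ?_⟩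
  · intro l hl l' hl' hll
    rw [← h l' (h2 l' hl')]
    exact h3 l hl l' hl' hll
  · rw [← h _ (h2 _ (sInf_mem_cd h1))]
    exact h4

open Classical in
/-- The beginning of the time interval. -/
noncomputable def M (n : ℕ) : ℕ :=
  if Good n (fun l => if h : l < n then M l else 0) then
    (if h : sInf (cd n : Set ℕ) < n then M (sInf (cd n : Set ℕ)) else 0)
  else n
termination_by n
decreasing_by
  all_goals exact h

lemma good_iff (n : ℕ) : Good n (fun l => if h : l < n then M l else 0) ↔ Good n M := by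
  constructor
  · intro h
    exact h.congr (fun l hl => by simp [hl])
  · intro h
    exact h.congr (fun l hl => by simp [hl])

lemma M_of_good {n : ℕ} (h : Good n M) : M n = M (sInf (cd n : Set ℕ)) := by
  rw [M, if_pos ((good_iff n).2 h), dif_pos (h.2.1 _ (sInf_mem_cd h.1))]

lemma M_of_not_good {n : ℕ} (h : ¬ Good n M) : M n = n := by
  rw [M, if_neg (fun h' => h ((good_iff n).1 h'))]

lemma M_le (n : ℕ) : M n ≤ n := by
  induction n using Nat.strong_induction_on with
  | _ n ih =>
    by_cases h : Good n M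
    · rw [M_of_good h]
      have h1 := h.2.1 _ (sInf_mem_cd h.1)
      exact (ih _ h1).trans h1.le
    · rw [M_of_not_good h]

open Classical in
/-- The children. -/
noncomputable def Sf (n : ℕ) : Finset ℕ := if Good n M then cd n else ∅

lemma good_of_mem {n l : ℕ} (h : l ∈ Sf n) : Good n M ∧ l ∈ cd n := by
  unfold Sf at h
  split_ifs at h with hg
  · exact ⟨hg, h⟩
  · simp at h

lemma Sf_of_good {n : ℕ} (h : Good n M) : Sf n = cd n := by
  unfold Sf
  rw [if_pos h]

end Build

open Build in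
/-- The combinatorial structure exists. -/
theorem exists_sys : Nonempty Sys := by
  refine ⟨{ S := Sf, m := M, lt_of_mem := ?_, succ := ?_, card_eq := ?_, m_le_m := ?_, m_le := M_le,
            m_basic := ?_, rich := ?_, basic := ?_ }⟩
  · intro n l hl
    obtain ⟨hg, hc⟩ := good_of_mem hl
    exact hg.2.1 l hc
  · intro n l l' hl hl' hll
    obtain ⟨hg, hc⟩ := good_of_mem hl
    obtain ⟨-, hc'⟩ := good_of_mem hl'
    exact hg.2.2.1 l hc l' hc' hll
  · intro n hn
    obtain ⟨l, hl⟩ := hn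
    obtain ⟨hg, hc⟩ := good_of_mem hl
    rw [Sf_of_good hg, M_of_good hg]
    exact hg.2.2.2
  · intro n l hl
    obtain ⟨hg, hc⟩ := good_of_mem hl
    rw [M_of_good hg]
    have h0 := sInf_mem_cd hg.1
    have h1 : sInf (cd n : Set ℕ) ≤ l := Nat.sInf_le (by simpa using hc)
    rcases h1.eq_or_lt with h2 | h2
    · rw [h2]
    · exact (M_le _).trans (hg.2.2.1 _ h0 l hc h2).le
  · intro n hn
    by_cases hg : Good n M
    · rw [Sf_of_good hg] at hn
      exact absurd hn hg.1.ne_empty
    · exact M_of_not_good hg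
  · intro L hL l₀ hl₀ hmin hcard N
    obtain ⟨n, hn, hcn⟩ := cd_inf L (N + L.sup id)
    have hs : sInf (cd n : Set ℕ) = l₀ := by
      rw [hcn]
      apply le_antisymm
      · exact Nat.sInf_le (by simpa using hl₀)
      · have : sInf (L : Set ℕ) ∈ (L : Set ℕ) := Nat.sInf_mem ⟨l₀, by simpa using hl₀⟩
        exact hmin _ (by simpa using this)
    have hg : Good n M := by
      refine ⟨?_, ?_, ?_, ?_⟩
      · rw [hcn]; exact ⟨l₀, hl₀⟩
      · rw [hcn]
        intro l hl
        have : l ≤ L.sup id := Finset.le_sup (f := id) hl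
        omega
      · rw [hcn]; exact hL
      · rw [hs, hcn]; exact hcard
    refine ⟨n, by omega, ?_, ?_⟩
    · rw [Sf_of_good hg, hcn]
    · rw [M_of_good hg, hs]
  · intro N
    obtain ⟨n, hn, hcn⟩ := cd_inf ∅ N
    refine ⟨n, hn, ?_⟩
    have hg : ¬ Good n M := by
      intro hg
      have := hg.1
      rw [hcn] at this
      simp at this
    unfold Sf
    rw [if_neg hg]

end Pool.Agent.helper380_c0
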