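import Pool.Agent.helper380_c0.Basic

/-! The lower estimates for the damped maps (helper380, MP_fddf76_an). -/

set_option autoImplicit false

namespace Pool.Agent.helper380_c0

/-- A finite set of indices along which a function decreases by steps of size `e` is small. -/
lemma card_mul_le_of_records {φ : ℕ → ℝ} {e R : ℝ} (hR : 0 ≤ R) (B : Finset ℕ)
    (hB : ∀ l ∈ B, e < φ l) (hle : ∀ l ∈ B, φ l ≤ R)
    (hrec : ∀ l ∈ B, ∀ l' ∈ B, l < l' → φ l' + e < φ l) : (B.card : ℝ) * e ≤ R := by
  have key : ∀ B : Finset ℕ, (∀ l ∈ B, e < φ l) → (∀ l ∈ B, ∀ l' ∈ B, l < l' → φ l' + e < φ l) →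
      B = ∅ ∨ ∃ l ∈ B, (B.card : ℝ) * e ≤ φ l := by
    intro B
    induction B using Finset.induction_on_min with
    | empty => intro _ _; exact Or.inl rfl
    | insert a t hat ih =>
      intro h1 h2
      right
      have hnot : a ∉ t := fun h => lt_irrefl _ (hat a h)
      refine ⟨a, Finset.mem_insert_self _ _, ?_⟩
      rw [Finset.card_insert_of_notMem hnot]
      push_cast
      rcases ih (fun l hl => h1 l (Finset.mem_insert_of_mem hl))
        (fun l hl l' hl' => h2 l (Finset.mem_insert_of_mem hl) l' (Finset.mem_insert_of_mem hl'))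
        with h3 | ⟨l, hl, h3⟩
      · subst h3
        have := h1 a (Finset.mem_insert_self _ _)
        simp
        linarith
      · have := h2 a (Finset.mem_insert_self _ _) l (Finset.mem_insert_of_mem hl) (hat l hl)
        linarith
  rcases key B hB hrec with h | ⟨l, hl, h⟩
  · subst h
    simpa using hR
  · exact h.trans (hle l hl)

/-- A self-improving bound on a supremum. -/
lemma le_of_self_bound {ι : Type} {φ : ι → ℝ} {C c q : ℝ} (hC : ∀ i, φ i ≤ C)
    (hφ : ∀ i, 0 ≤ φ i) (hq : 0 ≤ q) (hq1 : q < 1) (hc : 0 ≤ c)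
    (h : ∀ a : ℝ, 0 ≤ a → (∀ i, φ i ≤ a) → ∀ i, φ i ≤ c + q * a) : ∀ i, φ i ≤ c / (1 - q) := by
  intro i
  have hb : BddAbove (Set.range φ) := ⟨C, by rintro _ ⟨j, rfl⟩; exact hC j⟩
  have h0 : 0 ≤ ⨆ j, φ j := Real.iSup_nonneg hφ
  have h1 : ∀ j, φ j ≤ ⨆ j, φ j := fun j => le_ciSup hb j
  have h2 := h _ h0 h1
  have h3 : (⨆ j, φ j) ≤ c + q * ⨆ j, φ j :=
    Real.iSup_le h2 (by positivity)
  have h4 : (⨆ j, φ j) ≤ c / (1 - q) := by
    rw [le_div_iff₀ (by linarith)]
    linarith
  exact (h1 i).trans h4

lemma K_real (n : ℕ) : (K n : ℝ) = (4 ^ (n + 2)) ^ 2 := by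
  unfold K
  push_cast
  rw [← pow_mul, mul_comm (n + 2) 2, pow_mul]
  norm_num

namespace Sys

variable (s : Sys)

lemma card_ge_256 {n : ℕ} (h : (s.S n).Nonempty) : (256 : ℝ) ≤ (s.S n).card := by
  rw [s.card_eq h, K_real]
  have : (1 : ℝ) ≤ 4 ^ (s.m n) := one_le_pow₀ (by norm_num)
  rw [pow_add]
  nlinarith

/-- The good pairs. -/
lemma H_good {a b w v e α : ℝ} (hw : 0 ≤ w) (hv : 0 ≤ v) (he : 0 ≤ e) (h1 : |a| ≤ w + e)
    (h2 : |b| ≤ v + e) (h3 : |a - b| ≤ α) : |H a w - H b v| ≤ α / 2 + e := by
  have h4 := abs_le.1 (H_half hw he h1)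
  have h5 := abs_le.1 (H_half hv he h2)
  have h6 := abs_le.1 h3
  rw [abs_le]
  constructor <;> linarith

/-- The number of children whose average exceeds the later part by more than `e`. -/
lemma card_bad {x : ℕ → ℝ} {R e : ℝ} (hR : 0 ≤ R) (hx : ∀ n, |x n| ≤ R) (n : ℕ) :
    (((s.S n).filter (fun l => s.Wt x (l + 1) + e < |s.A x l|)).card : ℝ) * e ≤ R := by
  apply card_mul_le_of_records (φ := fun l => |s.A x l|) hR
  · intro l hl
    have h1 := (Finset.mem_filter.1 hl).2
    have h2 := s.Wt_nonneg x (l + 1)
    show e < |s.A x l|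
    linarith
  · intro l _
    exact s.A_le hR (fun c _ => hx c)
  · intro l hl l' hl' hll
    have h1 := (Finset.mem_filter.1 hl)
    have h2 := (Finset.mem_filter.1 hl')
    have h3 := s.A_le_Wt hx (s.succ h1.1 h2.1 hll)
    have h4 := h1.2
    show |s.A x l'| + e < |s.A x l|
    linarith

/-- **Hiding lemma.** Beyond the time `P` the averages of the differences do not accumulate. -/
theorem hide_est {χ x y : ℕ → ℝ} {R δ : ℝ} {P : ℕ} (hR : 0 < R) (hδ : 0 ≤ δ)
    (hx : ∀ n, |x n| ≤ R) (hy : ∀ n, |y n| ≤ R) (hχ : ∀ n, P ≤ n → χ n = 1)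
    (hf : ∀ n, |s.f χ x n - s.f χ y n| ≤ δ) :
    ∀ q, P ≤ s.m q → |x q - y q| ≤ 6 * δ + 16 * R / 4 ^ (P + 2) := by
  -- the difference of `x` and `y` in terms of the averages
  have hdiff : ∀ l, P ≤ l → x l - y l = (s.f χ x l - s.f χ y l) +
      (H (s.A x l) (s.Wt x (l + 1)) - H (s.A y l) (s.Wt y (l + 1))) := by
    intro l hl
    unfold f
    rw [hχ l hl]
    ring
  set T : ℝ := 4 ^ (P + 2) with hT
  have hTpos : 0 < T := by positivity
  -- bound for the averages
  have hAbound : ∀ n, P ≤ s.m n → |s.A x n - s.A y n| ≤ 2 * δ + 8 * R / T := by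
    have key := le_of_self_bound (ι := {n : ℕ // P ≤ s.m n})
      (φ := fun n => |s.A x n - s.A y n|) (C := 2 * R) (c := δ + 4 * R / T) (q := 1 / 2)
      (by
        intro n
        have h1 : |s.A x n| ≤ R := s.A_le hR.le (fun c _ => hx c)
        have h2 : |s.A y n| ≤ R := s.A_le hR.le (fun c _ => hy c)
        have h3 := abs_sub (s.A x n) (s.A y n)
        show |s.A x n - s.A y n| ≤ 2 * R
        linarith)
      (fun n => abs_nonneg _) (by norm_num) (by norm_num) (by positivity)
      (by
        intro a ha hall n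
        obtain ⟨n, hn⟩ := n
        show |s.A x n - s.A y n| ≤ δ + 4 * R / T + 1 / 2 * a
        rcases (s.S n).eq_empty_or_nonempty with h0 | h0
        · rw [s.A_basic h0, s.A_basic h0]
          simp
          positivity
        -- the scale
        set t : ℝ := 4 ^ (s.m n + 2) with ht
        have htpos : 0 < t := by positivity
        have hTt : T ≤ t := by
          rw [hT, ht]
          exact pow_le_pow_right₀ (by norm_num) (by omega)
        have hcard : ((s.S n).card : ℝ) = t ^ 2 := by
          rw [s.card_eq h0, K_real]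
        set e : ℝ := 2 * R / t with he
        have hepos : 0 < e := by positivity
        set Bx := (s.S n).filter (fun l => s.Wt x (l + 1) + e < |s.A x l|) with hBx
        set By := (s.S n).filter (fun l => s.Wt y (l + 1) + e < |s.A y l|) with hBy
        have hBxc : (Bx.card : ℝ) ≤ t / 2 := by
          have := s.card_bad (e := e) hR.le hx n
          rw [← hBx, he] at this
          have h5 : (Bx.card : ℝ) * (2 * R / t) = (Bx.card * 2 / t) * R := by ring
          rw [h5] at this
          have h6 : (Bx.card : ℝ) * 2 / t ≤ 1 := by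
            by_contra hcon
            push Not at hcon
            nlinarith
          rw [div_le_one htpos] at h6
          linarith
        have hByc : (By.card : ℝ) ≤ t / 2 := by
          have := s.card_bad (e := e) hR.le hy n
          rw [← hBy, he] at this
          have h5 : (By.card : ℝ) * (2 * R / t) = (By.card * 2 / t) * R := by ring
          rw [h5] at this
          have h6 : (By.card : ℝ) * 2 / t ≤ 1 := by
            by_contra hcon
            push Not at hcon
            nlinarith
          rw [div_le_one htpos] at h6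
          linarith
        have hBc : ((Bx ∪ By).card : ℝ) ≤ (1 / t) * (s.S n).card := by
          have h7 : ((Bx ∪ By).card : ℝ) ≤ Bx.card + By.card := by
            exact_mod_cast Finset.card_union_le Bx By
          rw [hcard]
          have : 1 / t * t ^ 2 = t := by field_simp
          rw [this]
          linarith
        rw [s.A_sub]
        have hsplit := s.A_le_of_split (x := x - y) (n := n) (c := δ + (a / 2 + e)) (d := 2 * R)
          (b := 1 / t) (Bx ∪ By) (by positivity) (by positivity) (by positivity) hBc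
          (by
            intro l hl
            have hml : P ≤ s.m l := hn.trans (s.m_le_m hl)
            have hPl : P ≤ l := hml.trans (s.m_le l)
            show |x l - y l| ≤ _
            rw [hdiff l hPl]
            have h8 := abs_add_le (s.f χ x l - s.f χ y l)
              (H (s.A x l) (s.Wt x (l + 1)) - H (s.A y l) (s.Wt y (l + 1)))
            have h9 := hf l
            have hWx := s.Wt_nonneg x (l + 1)
            have hWy := s.Wt_nonneg y (l + 1)
            split_ifs with hB
            · -- bad child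
              have h10 : |H (s.A x l) (s.Wt x (l + 1))| ≤ R :=
                (H_abs_le hWx).trans (s.A_le hR.le (fun c _ => hx c))
              have h11 : |H (s.A y l) (s.Wt y (l + 1))| ≤ R :=
                (H_abs_le hWy).trans (s.A_le hR.le (fun c _ => hy c))
              have h12 := abs_sub (H (s.A x l) (s.Wt x (l + 1))) (H (s.A y l) (s.Wt y (l + 1)))
              have : 0 ≤ a / 2 + e := by positivity
              linarith
            · -- good child
              have hBx' : l ∉ Bx := fun h => hB (Finset.mem_union_left _ h)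
              have hBy' : l ∉ By := fun h => hB (Finset.mem_union_right _ h)
              have h13 : |s.A x l| ≤ s.Wt x (l + 1) + e := by
                by_contra hcon
                push Not at hcon
                exact hBx' (Finset.mem_filter.2 ⟨hl, hcon⟩)
              have h14 : |s.A y l| ≤ s.Wt y (l + 1) + e := by
                by_contra hcon
                push Not at hcon
                exact hBy' (Finset.mem_filter.2 ⟨hl, hcon⟩)
              have h15 := H_good hWx hWy hepos.le h13 h14 (hall ⟨l, hml⟩)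
              linarith)
        have h16 : 1 / t * (2 * R) = e := by rw [he]; ring
        have h17 : e ≤ 2 * R / T := by
          rw [he]
          exact div_le_div_of_nonneg_left (by positivity) hTpos hTt
        have h18 : 4 * R / T = 2 * (2 * R / T) := by ring
        rw [h16] at hsplit
        rw [h18]
        linarith)
    intro n hn
    have := key ⟨n, hn⟩
    have h1 : (δ + 4 * R / T) / (1 - 1 / 2) = 2 * δ + 8 * R / T := by ring
    rw [h1] at this
    exact this
  -- bound for the differences
  have key2 := le_of_self_bound (ι := {n : ℕ // P ≤ s.m n})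
    (φ := fun n => |x n - y n|) (C := 2 * R) (c := 3 * δ + 8 * R / T) (q := 1 / 2)
    (by
      intro n
      have h3 := abs_sub (x n) (y n)
      have h4 := hx n
      have h5 := hy n
      show |x n - y n| ≤ 2 * R
      linarith)
    (fun n => abs_nonneg _) (by norm_num) (by norm_num) (by positivity)
    (by
      intro a ha hall n
      obtain ⟨n, hn⟩ := n
      show |x n - y n| ≤ 3 * δ + 8 * R / T + 1 / 2 * a
      have hPn : P ≤ n := hn.trans (s.m_le n)
      rw [hdiff n hPn]
      have h8 := abs_add_le (s.f χ x n - s.f χ y n)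
        (H (s.A x n) (s.Wt x (n + 1)) - H (s.A y n) (s.Wt y (n + 1)))
      have h9 := hf n
      have h10 := H_lip (a := s.A x n) (b := s.A y n) (s.Wt_nonneg x (n + 1))
        (s.Wt_nonneg y (n + 1))
      have h11 := hAbound n hn
      have h12 : |s.Wt x (n + 1) - s.Wt y (n + 1)| ≤ a := by
        apply s.Wt_sub_le hx hy ha
        intro q hq
        exact hall ⟨q, by omega⟩
      linarith)
  intro q hq
  have := key2 ⟨q, hq⟩
  have h1 : (3 * δ + 8 * R / T) / (1 - 1 / 2) = 6 * δ + 16 * R / T := by ring
  rw [h1] at this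
  exact this

/-- **Recursion lemma.** -/
theorem recursion_step {χ x y : ℕ → ℝ} {R δ D : ℝ} {r : ℕ} (hδ : 0 ≤ δ) (hD : 0 ≤ D)
    (hx : ∀ n, |x n| ≤ R) (hy : ∀ n, |y n| ≤ R) (hχ : ∀ n, |χ n| ≤ 1)
    (hf : ∀ n, |s.f χ x n - s.f χ y n| ≤ δ) (h : ∀ q, r + 1 ≤ s.m q → |x q - y q| ≤ D) :
    ∀ q, r ≤ s.m q → |x q - y q| ≤ 2 * δ + 2 * D := by
  intro q
  induction q using Nat.strong_induction_on with
  | _ n ih =>
    intro hn
    rcases hn.eq_or_lt with hn' | hn'
    swap
    · have := h n hn'
      linarith
    have h7 : x n - y n = (s.f χ x n - s.f χ y n) +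
        χ n * (H (s.A x n) (s.Wt x (n + 1)) - H (s.A y n) (s.Wt y (n + 1))) := by
      unfold f; ring
    have h10 := H_lip (a := s.A x n) (b := s.A y n) (s.Wt_nonneg x (n + 1))
        (s.Wt_nonneg y (n + 1))
    have h12 : |s.Wt x (n + 1) - s.Wt y (n + 1)| ≤ D := by
      apply s.Wt_sub_le hx hy hD
      intro q hq
      apply h
      have := s.m_le n
      omega
    have h8 := abs_add_le (s.f χ x n - s.f χ y n)
      (χ n * (H (s.A x n) (s.Wt x (n + 1)) - H (s.A y n) (s.Wt y (n + 1))))
    rw [← h7, abs_mul] at h8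
    have h9 := hf n
    rcases (s.S n).eq_empty_or_nonempty with h0 | h0
    · rw [s.A_basic h0, s.A_basic h0, H_zero_left (s.Wt_nonneg _ _),
        H_zero_left (s.Wt_nonneg _ _)] at h8
      simp at h8
      linarith
    · have hk := s.card_ge_256 h0
      have hA : |s.A x n - s.A y n| ≤ D + 1 / 256 * (2 * δ + D) := by
        rw [s.A_sub]
        apply s.A_le_of_split ((s.S n).filter (fun l => s.m l = r)) hD (by positivity)
          (by norm_num)
        · have hle : ((s.S n).filter (fun l => s.m l = r)).card ≤ 1 := by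
            rw [Finset.card_le_one]
            intro a ha b hb
            rw [Finset.mem_filter] at ha hb
            rcases lt_trichotomy a b with hab | hab | hab
            · exfalso
              have h1 := s.succ ha.1 hb.1 hab
              have h2 := s.m_le a
              omega
            · exact hab
            · exfalso
              have h1 := s.succ hb.1 ha.1 hab
              have h2 := s.m_le b
              omega
          have : (((s.S n).filter (fun l => s.m l = r)).card : ℝ) ≤ 1 := by exact_mod_cast hle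
          linarith
        · intro l hl
          have hml := s.m_le_m hl
          show |x l - y l| ≤ _
          split_ifs with hB
          · have := ih l (s.lt_of_mem hl) (by omega)
            linarith
          · have hne : s.m l ≠ r := fun h' => hB (Finset.mem_filter.2 ⟨hl, h'⟩)
            have := h l (by omega)
            linarith
      have h13 : |χ n| * |H (s.A x n) (s.Wt x (n + 1)) - H (s.A y n) (s.Wt y (n + 1))| ≤
          1 * |H (s.A x n) (s.Wt x (n + 1)) - H (s.A y n) (s.Wt y (n + 1))| :=
        mul_le_mul_of_nonneg_right (hχ n) (abs_nonneg _)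
      linarith

/-- Iteration of the recursion lemma. -/
theorem recursion {χ x y : ℕ → ℝ} {R δ D : ℝ} (P : ℕ) (hδ : 0 ≤ δ) (hD : 0 ≤ D)
    (hx : ∀ n, |x n| ≤ R) (hy : ∀ n, |y n| ≤ R) (hχ : ∀ n, |χ n| ≤ 1)
    (hf : ∀ n, |s.f χ x n - s.f χ y n| ≤ δ) (h : ∀ q, P ≤ s.m q → |x q - y q| ≤ D) :
    ∀ q, |x q - y q| ≤ 2 ^ P * (2 * δ + D) := by
  induction P generalizing D with
  | zero =>
    intro q
    have := h q (Nat.zero_le _)
    simp
    linarith
  | succ r ih =>
    have h1 := s.recursion_step hδ hD hx hy hχ hf h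
    have h2 := ih (D := 2 * δ + 2 * D) (by positivity) h1
    intro q
    have h3 := h2 q
    have h4 : (2 : ℝ) ^ r * (2 * δ + (2 * δ + 2 * D)) = 2 ^ (r + 1) * (2 * δ + D) := by
      rw [pow_succ]; ring
    rw [h4] at h3
    exact h3

/-- **Zone lemma.** -/
theorem zone {χ x y : ℕ → ℝ} {R δ D : ℝ} {N : ℕ} (hδ : 0 ≤ δ) (hD : 0 ≤ D)
    (hx : ∀ n, |x n| ≤ R) (hy : ∀ n, |y n| ≤ R) (hχ : ∀ n, |χ n| ≤ 1) (hχ0 : ∀ n, n < N → χ n = 0)
    (hf : ∀ n, |s.f χ x n - s.f χ y n| ≤ δ) (h : ∀ q, N + 1 ≤ s.m q → |x q - y q| ≤ D) :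
    ∀ q, |x q - y q| ≤ 4 * δ + 2 * D := by
  have h7 : ∀ n, |x n - y n| ≤ δ + |χ n| * (|s.A x n - s.A y n| +
      |s.Wt x (n + 1) - s.Wt y (n + 1)| / 2) := by
    intro n
    have h7 : x n - y n = (s.f χ x n - s.f χ y n) +
        χ n * (H (s.A x n) (s.Wt x (n + 1)) - H (s.A y n) (s.Wt y (n + 1))) := by
      unfold f; ring
    have h10 := H_lip (a := s.A x n) (b := s.A y n) (s.Wt_nonneg x (n + 1))
        (s.Wt_nonneg y (n + 1))
    have h8 := abs_add_le (s.f χ x n - s.f χ y n)
      (χ n * (H (s.A x n) (s.Wt x (n + 1)) - H (s.A y n) (s.Wt y (n + 1))))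
    rw [← h7, abs_mul] at h8
    have h9 := hf n
    have h11 := mul_le_mul_of_nonneg_left h10 (abs_nonneg (χ n))
    linarith
  -- small indices
  have hsmall : ∀ n, n < N → |x n - y n| ≤ δ := by
    intro n hn
    have := h7 n
    rw [hχ0 n hn] at this
    simpa using this
  have hW : ∀ n, N ≤ n → |s.Wt x (n + 1) - s.Wt y (n + 1)| ≤ D := by
    intro n hn
    apply s.Wt_sub_le hx hy hD
    intro q hq
    exact h q (by omega)
  have hgen : ∀ n, N ≤ n → ∀ c : ℝ, 0 ≤ c → |s.A x n - s.A y n| ≤ c →
      |x n - y n| ≤ δ + c + D / 2 := by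
    intro n hn c hc hA
    have h1 := h7 n
    have h2 := hW n hn
    have h3 : |χ n| * (|s.A x n - s.A y n| + |s.Wt x (n + 1) - s.Wt y (n + 1)| / 2) ≤
        1 * (c + D / 2) :=
      mul_le_mul (hχ n) (by linarith) (by positivity) (by norm_num)
    linarith
  have hmid : |x N - y N| ≤ 2 * δ + D / 2 := by
    have hA : |s.A x N - s.A y N| ≤ δ := by
      rw [s.A_sub]
      exact s.A_le hδ (fun l hl => hsmall l (s.lt_of_mem hl))
    have := hgen N le_rfl δ hδ hA
    linarith
  intro q
  induction q using Nat.strong_induction_on with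
  | _ n ih =>
    rcases lt_trichotomy n N with hn | hn | hn
    · have := hsmall n hn
      linarith
    · subst hn
      linarith
    · have hk : |s.A x n - s.A y n| ≤ (2 * δ + D) + 1 / 256 * (2 * δ + D) := by
        rcases (s.S n).eq_empty_or_nonempty with h0 | h0
        · rw [s.A_basic h0, s.A_basic h0]
          simp
          positivity
        have hk := s.card_ge_256 h0
        rw [s.A_sub]
        apply s.A_le_of_split ((s.S n).filter (fun l => s.m l ≤ N ∧ N < l)) (by positivity)
          (by positivity) (by norm_num)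
        · have hle : ((s.S n).filter (fun l => s.m l ≤ N ∧ N < l)).card ≤ 1 := by
            rw [Finset.card_le_one]
            intro a ha b hb
            rw [Finset.mem_filter] at ha hb
            rcases lt_trichotomy a b with hab | hab | hab
            · exfalso
              have h1 := s.succ ha.1 hb.1 hab
              omega
            · exact hab
            · exfalso
              have h1 := s.succ hb.1 ha.1 hab
              omega
          have : (((s.S n).filter (fun l => s.m l ≤ N ∧ N < l)).card : ℝ) ≤ 1 := by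
            exact_mod_cast hle
          linarith
        · intro l hl
          show |x l - y l| ≤ _
          split_ifs with hB
          · have := ih l (s.lt_of_mem hl)
            linarith
          · rcases lt_trichotomy l N with hl' | hl' | hl'
            · have := hsmall l hl'
              linarith
            · subst hl'
              linarith
            · have hne : ¬ s.m l ≤ N := fun h' => hB (Finset.mem_filter.2 ⟨hl, h', hl'⟩)
              have := h l (by omega)
              linarith
      have := hgen n hn.le _ (by positivity) hk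
      linarith

/-- Combination of the hiding lemma and the zone lemma. -/
theorem est_zone {χ x y : ℕ → ℝ} {R δ : ℝ} {N : ℕ} (hR : 0 < R) (hδ : 0 ≤ δ)
    (hx : ∀ n, |x n| ≤ R) (hy : ∀ n, |y n| ≤ R) (hχ : ∀ n, |χ n| ≤ 1) (hχ0 : ∀ n, n < N → χ n = 0)
    (hχ1 : ∀ n, N < n → χ n = 1) (hf : ∀ n, |s.f χ x n - s.f χ y n| ≤ δ) :
    ∀ q, |x q - y q| ≤ 16 * δ + 32 * R / 4 ^ (N + 3) := by
  have h1 := s.hide_est (P := N + 1) hR hδ hx hy (fun n hn => hχ1 n (by omega)) hf
  have h2 := s.zone hδ (D := 6 * δ + 16 * R / 4 ^ (N + 1 + 2)) (by positivity) hx hy hχ hχ0 hf h1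
  intro q
  have := h2 q
  have h3 : 4 * δ + 2 * (6 * δ + 16 * R / 4 ^ (N + 1 + 2)) = 16 * δ + 32 * R / 4 ^ (N + 3) := by
    ring
  rw [h3] at this
  exact this

/-- Combination of the hiding lemma and the recursion lemma. -/
theorem est_rec {χ x y : ℕ → ℝ} {R δ : ℝ} (P : ℕ) (hR : 0 < R) (hδ : 0 ≤ δ)
    (hx : ∀ n, |x n| ≤ R) (hy : ∀ n, |y n| ≤ R) (hχ : ∀ n, |χ n| ≤ 1)
    (hχ1 : ∀ n, P ≤ n → χ n = 1) (hf : ∀ n, |s.f χ x n - s.f χ y n| ≤ δ) :
    ∀ q, |x q - y q| ≤ 2 ^ (P + 3) * δ + R / 2 ^ P := by
  have h1 := s.hide_est (P := P) hR hδ hx hy hχ1 hf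
  have h2 := s.recursion P hδ (D := 6 * δ + 16 * R / 4 ^ (P + 2)) (by positivity) hx hy hχ hf h1
  intro q
  have := h2 q
  have h3 : (2 : ℝ) ^ P * (2 * δ + (6 * δ + 16 * R / 4 ^ (P + 2))) =
      2 ^ (P + 3) * δ + R / 2 ^ P := by
    have h4 : (4 : ℝ) ^ (P + 2) = 2 ^ P * 2 ^ P * 16 := by
      rw [pow_add, show (4 : ℝ) = 2 * 2 by norm_num, mul_pow]
      ring
    rw [h4, pow_add]
    field_simp
    ring
  rw [h3] at this
  exact this

end Sys

end Pool.Agent.helper380_c0
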