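import Pool.Agent.helper380_c0.Est

/-! The Banach space and the surjectivity of the damped maps (helper380, MP_fddf76_an). -/

set_option autoImplicit false

open Filter Topology BoundedContinuousFunction
open scoped ZeroAtInfty

namespace Pool.Agent.helper380_c0

/-- A null sequence as an element of `c_0`. -/
noncomputable def mk0 (g : ℕ → ℝ) (h : Tendsto g atTop (𝓝 0)) : C₀(ℕ, ℝ) where
  toFun := g
  continuous_toFun := continuous_of_discreteTopology
  zero_at_infty' := by rw [cocompact_eq_cofinite, Nat.cofinite_eq_atTop]; exact h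

@[simp] lemma mk0_apply (g : ℕ → ℝ) (h : Tendsto g atTop (𝓝 0)) (n : ℕ) : mk0 g h n = g n := rfl

lemma c0_tendsto (g : C₀(ℕ, ℝ)) : Tendsto (fun n => g n) atTop (𝓝 0) := by
  have := g.zero_at_infty'
  rw [cocompact_eq_cofinite, Nat.cofinite_eq_atTop] at this
  exact this

lemma c0_abs_le (g : C₀(ℕ, ℝ)) (n : ℕ) : |g n| ≤ ‖g‖ := by
  have := g.toBCF.norm_coe_le_norm n
  rw [ZeroAtInftyContinuousMap.norm_toBCF_eq_norm] at this
  exact this

lemma c0_norm_le {g : C₀(ℕ, ℝ)} {c : ℝ} (hc : 0 ≤ c) (h : ∀ n, |g n| ≤ c) : ‖g‖ ≤ c := by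
  rw [← ZeroAtInftyContinuousMap.norm_toBCF_eq_norm]
  rw [BoundedContinuousFunction.norm_le hc]
  exact h

/-- A bounded sequence as an element of `l_infinity`. -/
noncomputable def mkB (x : ℕ → ℝ) (C : ℝ) (h : ∀ n, |x n| ≤ C) : ℕ →ᵇ ℝ :=
  BoundedContinuousFunction.ofNormedAddCommGroupDiscrete x C h

@[simp] lemma mkB_apply (x : ℕ → ℝ) (C : ℝ) (h : ∀ n, |x n| ≤ C) (n : ℕ) : mkB x C h n = x n := rfl

lemma b_abs_le (x : ℕ →ᵇ ℝ) (n : ℕ) : |x n| ≤ ‖x‖ := x.norm_coe_le_norm n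

lemma b_norm_le {x : ℕ →ᵇ ℝ} {c : ℝ} (hc : 0 ≤ c) (h : ∀ n, |x n| ≤ c) : ‖x‖ ≤ c := by
  rw [BoundedContinuousFunction.norm_le hc]
  exact h

namespace Sys

variable (s : Sys)

/-- Membership in the space. -/
def Mem (x : ℕ → ℝ) : Prop :=
  Tendsto (fun n => x n - s.A x n) atTop (𝓝 0) ∧ Tendsto (fun n => s.Wt x n) atTop (𝓝 0)

/-- The Banach space, as a subspace of `l_infinity`. -/
noncomputable def X : Submodule ℝ (ℕ →ᵇ ℝ) where
  carrier := {x | s.Mem x}
  add_mem' := by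
    intro x y hx hy
    obtain ⟨hx1, hx2⟩ := hx
    obtain ⟨hy1, hy2⟩ := hy
    refine ⟨?_, ?_⟩
    · have h := hx1.add hy1
      rw [add_zero] at h
      refine h.congr (fun n => ?_)
      rw [BoundedContinuousFunction.coe_add, s.A_add]
      simp only [Pi.add_apply]
      ring
    · have h := hx2.add hy2
      rw [add_zero] at h
      refine squeeze_zero (fun n => s.Wt_nonneg _ n) (fun n => ?_) h
      apply s.Wt_le (add_nonneg (s.Wt_nonneg _ _) (s.Wt_nonneg _ _))
      intro q hq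
      have h1 := s.le_Wt (b_abs_le x) hq
      have h2 := s.le_Wt (b_abs_le y) hq
      have h3 := abs_add_le (x q) (y q)
      rw [BoundedContinuousFunction.coe_add]
      simp only [Pi.add_apply]
      linarith
  zero_mem' := by
    refine ⟨?_, ?_⟩
    · have : (fun n => (0 : ℕ →ᵇ ℝ) n - s.A (0 : ℕ →ᵇ ℝ) n) = fun _ => (0 : ℝ) := by
        ext n
        simp [A]
      rw [this]
      exact tendsto_const_nhds
    · refine squeeze_zero (fun n => s.Wt_nonneg _ n) (fun n => ?_) (tendsto_const_nhds (x := (0 : ℝ)))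
      apply s.Wt_le le_rfl
      intro q _
      simp
  smul_mem' := by
    intro c x hx
    obtain ⟨hx1, hx2⟩ := hx
    refine ⟨?_, ?_⟩
    · have h := hx1.const_mul c
      rw [mul_zero] at h
      refine h.congr (fun n => ?_)
      rw [BoundedContinuousFunction.coe_smul]
      have : s.A (fun n => c • x n) n = c * s.A x n := s.A_smul c x n
      rw [this]
      simp only [smul_eq_mul]
      ring
    · have h := hx2.const_mul |c|
      rw [mul_zero] at h
      refine squeeze_zero (fun n => s.Wt_nonneg _ n) (fun n => ?_) h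
      apply s.Wt_le (mul_nonneg (abs_nonneg _) (s.Wt_nonneg _ _))
      intro q hq
      have h1 := s.le_Wt (b_abs_le x) hq
      rw [BoundedContinuousFunction.coe_smul]
      simp only [smul_eq_mul]
      rw [abs_mul]
      exact mul_le_mul_of_nonneg_left h1 (abs_nonneg _)

lemma mem_X {x : ℕ →ᵇ ℝ} : x ∈ s.X ↔ s.Mem x := Iff.rfl

lemma isClosed_X : IsClosed (s.X : Set (ℕ →ᵇ ℝ)) := by
  apply isClosed_of_closure_subset
  intro x hx
  rw [Metric.mem_closure_iff] at hx
  refine ⟨?_, ?_⟩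
  · rw [Metric.tendsto_atTop]
    intro ε hε
    obtain ⟨y, hy, hxy⟩ := hx (ε / 4) (by positivity)
    have hy1 := (Metric.tendsto_atTop.1 hy.1) (ε / 4) (by positivity)
    obtain ⟨N, hN⟩ := hy1
    refine ⟨N, fun n hn => ?_⟩
    have h1 := hN n hn
    rw [Real.dist_eq, sub_zero] at h1 ⊢
    have h2 : ∀ q, |x q - y q| ≤ ε / 4 := by
      intro q
      have := BoundedContinuousFunction.dist_coe_le_dist (f := x) (g := y) q
      rw [Real.dist_eq] at this
      linarith
    have h3 : |s.A x n - s.A y n| ≤ ε / 4 := by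
      rw [s.A_sub]
      exact s.A_le (by positivity) (fun l _ => h2 l)
    have h4 := h2 n
    rw [abs_lt] at h1 ⊢
    rw [abs_le] at h3 h4
    constructor <;> linarith
  · rw [Metric.tendsto_atTop]
    intro ε hε
    obtain ⟨y, hy, hxy⟩ := hx (ε / 4) (by positivity)
    have hy1 := (Metric.tendsto_atTop.1 hy.2) (ε / 4) (by positivity)
    obtain ⟨N, hN⟩ := hy1
    refine ⟨N, fun n hn => ?_⟩
    have h1 := hN n hn
    rw [Real.dist_eq, sub_zero] at h1 ⊢
    have h2 : ∀ q, |x q - y q| ≤ ε / 4 := by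
      intro q
      have := BoundedContinuousFunction.dist_coe_le_dist (f := x) (g := y) q
      rw [Real.dist_eq] at this
      linarith
    have h3 : |s.Wt x n - s.Wt y n| ≤ ε / 4 :=
      s.Wt_sub_le (b_abs_le x) (b_abs_le y) (by positivity) (fun q _ => h2 q)
    rw [abs_lt] at h1 ⊢
    rw [abs_le] at h3
    constructor <;> linarith

instance : CompleteSpace s.X := s.isClosed_X.completeSpace_coe

/-- Zone condition for the parameter. -/
def IsZone (χ : ℕ → ℝ) (N : ℕ) : Prop :=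
  (∀ n, |χ n| ≤ 1) ∧ (∀ n, n < N → χ n = 0) ∧ (∀ n, N < n → χ n = 1)

lemma f_tendsto {χ : ℕ → ℝ} {N : ℕ} (hχ : IsZone χ N) {x : ℕ → ℝ} (hx : s.Mem x) :
    Tendsto (s.f χ x) atTop (𝓝 0) := by
  have h1 : Tendsto (fun n => s.Wt x (n + 1)) atTop (𝓝 0) :=
    hx.2.comp (tendsto_add_atTop_nat 1)
  have h2 : Tendsto (fun n => |x n - s.A x n| + s.Wt x (n + 1) / 2) atTop (𝓝 0) := by
    have := (hx.1.abs).add (h1.div_const 2)
    simpa using this
  refine squeeze_zero_norm' ?_ h2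
  filter_upwards [eventually_gt_atTop N] with n hn
  unfold f
  rw [hχ.2.2 n hn, one_mul, Real.norm_eq_abs]
  have h3 := H_sub_self (a := s.A x n) (s.Wt_nonneg x (n + 1))
  have h4 : x n - H (s.A x n) (s.Wt x (n + 1)) =
      (x n - s.A x n) - (H (s.A x n) (s.Wt x (n + 1)) - s.A x n) := by ring
  rw [h4]
  have h5 := abs_sub (x n - s.A x n) (H (s.A x n) (s.Wt x (n + 1)) - s.A x n)
  linarith

lemma f_zero (χ : ℕ → ℝ) (n : ℕ) : s.f χ 0 n = 0 := by
  have h1 : s.A 0 n = 0 := by simp [A]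
  unfold f
  rw [h1, H_zero_left (s.Wt_nonneg _ _)]
  simp

/-- Lower bound. -/
lemma norm_lower {χ : ℕ → ℝ} {N : ℕ} (hχ : IsZone χ N) (x : ℕ →ᵇ ℝ) {c : ℝ} (hc : 0 ≤ c)
    (h : ∀ n, |s.f χ x n| ≤ c) : ‖x‖ ≤ 32 * c := by
  rcases eq_or_ne x 0 with h0 | h0
  · rw [h0, norm_zero]; positivity
  have hR : 0 < ‖x‖ := norm_pos_iff.2 h0
  have h1 := s.est_zone (x := x) (y := 0) (R := ‖x‖) (δ := c) hR hc (b_abs_le x)
    (fun n => by simp) hχ.1 hχ.2.1 hχ.2.2 (fun n => by rw [s.f_zero, sub_zero]; exact h n)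
  have h2 : ‖x‖ ≤ 16 * c + 32 * ‖x‖ / 4 ^ (N + 3) := by
    apply b_norm_le (by positivity)
    intro n
    have := h1 n
    simpa using this
  have h3 : 32 * ‖x‖ / 4 ^ (N + 3) ≤ ‖x‖ / 2 := by
    have h4 : (1 : ℝ) ≤ 4 ^ N := one_le_pow₀ (by norm_num)
    rw [pow_add, div_le_iff₀ (by positivity)]
    nlinarith
  linarith

/-- Decay along the weights. -/
lemma A_decay {x : ℕ → ℝ} {c : ℝ} (hc : 0 ≤ c) (hx : ∀ n, |x n| ≤ c / 4 ^ (s.m n)) (n : ℕ) :
    |s.A x n| ≤ (1 / 4 + 1 / 256) * (c / 4 ^ (s.m n)) := by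
  rcases (s.S n).eq_empty_or_nonempty with h0 | h0
  · rw [s.A_basic h0]
    simp
    positivity
  have hk := s.card_ge_256 h0
  have h1 := s.A_le_of_split (x := x) (n := n) (c := c / 4 ^ (s.m n + 1)) (d := c / 4 ^ (s.m n))
    (b := 1 / 256) ((s.S n).filter (fun l => s.m l = s.m n)) (by positivity) (by positivity)
    (by norm_num)
    (by
      have hle : ((s.S n).filter (fun l => s.m l = s.m n)).card ≤ 1 := by
        rw [Finset.card_le_one]
        intro a ha b hb
        rw [Finset.mem_filter] at ha hb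
        rcases lt_trichotomy a b with hab | hab | hab
        · exfalso
          have h1 := s.succ ha.1 hb.1 hab
          have h2 := s.m_le a
          omega
        · exact hab
        · exfalso
          have h1 := s.succ hb.1 ha.1 hab
          have h2 := s.m_le b
          omega
      have : (((s.S n).filter (fun l => s.m l = s.m n)).card : ℝ) ≤ 1 := by exact_mod_cast hle
      linarith)
    (by
      intro l hl
      have hml := s.m_le_m hl
      have hxl := hx l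
      split_ifs with hB
      · have h3 := (Finset.mem_filter.1 hB).2
        rw [h3] at hxl
        have : 0 ≤ c / 4 ^ (s.m n + 1) := by positivity
        linarith
      · have hne : s.m l ≠ s.m n := fun h' => hB (Finset.mem_filter.2 ⟨hl, h'⟩)
        have h4 : c / 4 ^ (s.m l) ≤ c / 4 ^ (s.m n + 1) := by
          apply div_le_div_of_nonneg_left hc (by positivity)
          exact pow_le_pow_right₀ (by norm_num) (by omega)
        linarith)
  have h2 : c / 4 ^ (s.m n + 1) = 1 / 4 * (c / 4 ^ (s.m n)) := by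
    rw [pow_succ]; ring
  rw [h2] at h1
  linarith

lemma W_decay {x : ℕ → ℝ} {c : ℝ} (hc : 0 ≤ c) (hx : ∀ n, |x n| ≤ c / 4 ^ (s.m n)) (n : ℕ) :
    s.Wt x n ≤ c / 4 ^ n := by
  apply s.Wt_le (by positivity)
  intro q hq
  refine (hx q).trans ?_
  apply div_le_div_of_nonneg_left hc (by positivity)
  exact pow_le_pow_right₀ (by norm_num) hq

/-- The equation can be solved for finitely supported right hand sides. -/
theorem exists_sol_finite {χ : ℕ → ℝ} {N : ℕ} (hχ : IsZone χ N) (g : ℕ → ℝ) (Q : ℕ)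
    (hg : ∀ n, Q ≤ n → g n = 0) : ∃ x : ℕ →ᵇ ℝ, s.Mem x ∧ ∀ n, s.f χ x n = g n := by
  classical
  -- a bound for `g`
  obtain ⟨G, hG0, hG⟩ : ∃ G : ℝ, 0 ≤ G ∧ ∀ n, |g n| ≤ G / 4 ^ (s.m n) := by
    refine ⟨∑ n ∈ Finset.range Q, |g n| * 4 ^ (s.m n), Finset.sum_nonneg (fun n _ => by positivity), ?_⟩
    intro n
    rw [le_div_iff₀ (by positivity)]
    by_cases hn : n < Q
    · exact Finset.single_le_sum (f := fun n => |g n| * 4 ^ (s.m n)) (fun n _ => by positivity)
        (Finset.mem_range.2 hn)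
    · rw [hg n (by omega)]
      simp
      exact Finset.sum_nonneg (fun n _ => by positivity)
  -- the rescaled sequence
  let u : (ℕ →ᵇ ℝ) → ℕ → ℝ := fun y n => y n / 4 ^ (s.m n)
  have hu : ∀ y n, |u y n| ≤ ‖y‖ / 4 ^ (s.m n) := by
    intro y n
    show |y n / 4 ^ (s.m n)| ≤ _
    rw [abs_div, abs_of_pos (show (0 : ℝ) < 4 ^ (s.m n) by positivity)]
    exact div_le_div_of_nonneg_right (b_abs_le y n) (by positivity)
  have hub : ∀ y n, |u y n| ≤ ‖y‖ := by
    intro y n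
    refine (hu y n).trans ?_
    apply div_le_self (norm_nonneg _)
    exact one_le_pow₀ (by norm_num)
  let v : (ℕ →ᵇ ℝ) → ℕ → ℝ := fun y n =>
    4 ^ (s.m n) * (g n + χ n * H (s.A (u y) n) (s.Wt (u y) (n + 1)))
  have hv : ∀ y n, |v y n| ≤ G + ‖y‖ := by
    intro y n
    show |4 ^ (s.m n) * (g n + χ n * H (s.A (u y) n) (s.Wt (u y) (n + 1)))| ≤ _
    have hp : (0 : ℝ) < 4 ^ (s.m n) := by positivity
    rw [abs_mul, abs_of_pos hp]
    have h1 := abs_add_le (g n) (χ n * H (s.A (u y) n) (s.Wt (u y) (n + 1)))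
    have h2 : |χ n * H (s.A (u y) n) (s.Wt (u y) (n + 1))| ≤ ‖y‖ / 4 ^ (s.m n) := by
      rw [abs_mul]
      have h3 := H_abs_le (a := s.A (u y) n) (s.Wt_nonneg (u y) (n + 1))
      have h4 := s.A_decay (norm_nonneg y) (hu y) n
      have h5 : 0 ≤ ‖y‖ / 4 ^ (s.m n) := by positivity
      calc |χ n| * |H (s.A (u y) n) (s.Wt (u y) (n + 1))| ≤
          1 * |H (s.A (u y) n) (s.Wt (u y) (n + 1))| :=
            mul_le_mul_of_nonneg_right (hχ.1 n) (abs_nonneg _)
        _ ≤ _ := by linarith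
    have h6 := hG n
    calc 4 ^ (s.m n) * |g n + χ n * H (s.A (u y) n) (s.Wt (u y) (n + 1))| ≤
        4 ^ (s.m n) * (G / 4 ^ (s.m n) + ‖y‖ / 4 ^ (s.m n)) :=
          mul_le_mul_of_nonneg_left (by linarith) hp.le
      _ = G + ‖y‖ := by field_simp
  let Ψ : (ℕ →ᵇ ℝ) → (ℕ →ᵇ ℝ) := fun y => mkB (v y) (G + ‖y‖) (hv y)
  have hΨ : ContractingWith (1 / 2) Ψ := by
    refine ⟨by norm_num, ?_⟩
    apply LipschitzWith.of_dist_le_mul
    intro y z
    rw [BoundedContinuousFunction.dist_le (by positivity)]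
    intro n
    rw [Real.dist_eq]
    show |v y n - v z n| ≤ _
    have hp : (0 : ℝ) < 4 ^ (s.m n) := by positivity
    have h1 : v y n - v z n = 4 ^ (s.m n) * (χ n * (H (s.A (u y) n) (s.Wt (u y) (n + 1)) -
        H (s.A (u z) n) (s.Wt (u z) (n + 1)))) := by
      show 4 ^ (s.m n) * (g n + χ n * H (s.A (u y) n) (s.Wt (u y) (n + 1))) -
        4 ^ (s.m n) * (g n + χ n * H (s.A (u z) n) (s.Wt (u z) (n + 1))) = _
      ring
    rw [h1, abs_mul, abs_of_pos hp]
    have h2 := H_lip (a := s.A (u y) n) (b := s.A (u z) n) (s.Wt_nonneg (u y) (n + 1))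
      (s.Wt_nonneg (u z) (n + 1))
    set d := dist y z with hd
    have hd0 : 0 ≤ d := dist_nonneg
    have h3 : ∀ q, |u y q - u z q| ≤ d / 4 ^ (s.m q) := by
      intro q
      show |y q / 4 ^ (s.m q) - z q / 4 ^ (s.m q)| ≤ _
      rw [← sub_div, abs_div, abs_of_pos (show (0 : ℝ) < 4 ^ (s.m q) by positivity)]
      apply div_le_div_of_nonneg_right _ (by positivity)
      have := BoundedContinuousFunction.dist_coe_le_dist (f := y) (g := z) q
      rw [Real.dist_eq] at this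
      exact this
    have h4 : |s.A (u y) n - s.A (u z) n| ≤ (1 / 4 + 1 / 256) * (d / 4 ^ (s.m n)) := by
      rw [s.A_sub]
      exact s.A_decay hd0 h3 n
    have h5 : |s.Wt (u y) (n + 1) - s.Wt (u z) (n + 1)| ≤ 1 / 4 * (d / 4 ^ (s.m n)) := by
      apply s.Wt_sub_le (hub y) (hub z) (by positivity)
      intro q hq
      refine (h3 q).trans ?_
      have : 1 / 4 * (d / 4 ^ (s.m n)) = d / 4 ^ (s.m n + 1) := by rw [pow_succ]; ring
      rw [this]
      apply div_le_div_of_nonneg_left hd0 (by positivity)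
      apply pow_le_pow_right₀ (by norm_num)
      have := s.m_le n
      omega
    have h6 : |χ n * (H (s.A (u y) n) (s.Wt (u y) (n + 1)) -
        H (s.A (u z) n) (s.Wt (u z) (n + 1)))| ≤ 1 / 2 * (d / 4 ^ (s.m n)) := by
      rw [abs_mul]
      have h7 : 0 ≤ d / 4 ^ (s.m n) := by positivity
      calc _ ≤ 1 * |H (s.A (u y) n) (s.Wt (u y) (n + 1)) -
            H (s.A (u z) n) (s.Wt (u z) (n + 1))| :=
            mul_le_mul_of_nonneg_right (hχ.1 n) (abs_nonneg _)
        _ ≤ _ := by linarith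
    calc 4 ^ (s.m n) * |χ n * (H (s.A (u y) n) (s.Wt (u y) (n + 1)) -
        H (s.A (u z) n) (s.Wt (u z) (n + 1)))| ≤ 4 ^ (s.m n) * (1 / 2 * (d / 4 ^ (s.m n))) :=
          mul_le_mul_of_nonneg_left h6 hp.le
      _ = 1 / 2 * d := by field_simp
      _ = _ := by simp
  obtain ⟨y, hy⟩ : ∃ y, Ψ y = y := ⟨hΨ.fixedPoint, hΨ.fixedPoint_isFixedPt⟩
  have hyn : ∀ n, v y n = y n := by
    intro n
    have := congrArg (fun z : ℕ →ᵇ ℝ => z n) hy
    exact this
  have hun : ∀ n, u y n = g n + χ n * H (s.A (u y) n) (s.Wt (u y) (n + 1)) := by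
    intro n
    have hp : (0 : ℝ) < 4 ^ (s.m n) := by positivity
    show y n / 4 ^ (s.m n) = _
    rw [← hyn n]
    show 4 ^ (s.m n) * (g n + χ n * H (s.A (u y) n) (s.Wt (u y) (n + 1))) / 4 ^ (s.m n) = _
    field_simp
  refine ⟨mkB (u y) ‖y‖ (hub y), ⟨?_, ?_⟩, ?_⟩
  · show Tendsto (fun n => u y n - s.A (u y) n) atTop (𝓝 0)
    have h1 : Tendsto (fun n : ℕ => ‖y‖ / 4 ^ (n + 1) / 2) atTop (𝓝 0) := by
      have h2 : Tendsto (fun n : ℕ => ‖y‖ * (1 / 4) ^ (n + 1) / 2) atTop (𝓝 0) := by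
        have h3 := (tendsto_pow_atTop_nhds_zero_of_lt_one (r := (1 / 4 : ℝ)) (by norm_num)
          (by norm_num)).comp (tendsto_add_atTop_nat 1)
        have h4 := (h3.const_mul ‖y‖).div_const 2
        simpa using h4
      refine h2.congr (fun n => ?_)
      rw [div_pow, one_pow]
      ring
    refine squeeze_zero_norm' ?_ h1
    filter_upwards [eventually_ge_atTop Q, eventually_gt_atTop N] with n hn hn'
    rw [hun n, hg n hn, hχ.2.2 n hn', zero_add, one_mul, Real.norm_eq_abs]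
    have h3 := H_sub_self (a := s.A (u y) n) (s.Wt_nonneg (u y) (n + 1))
    have h4 := s.W_decay (norm_nonneg y) (hu y) (n + 1)
    linarith
  · show Tendsto (fun n => s.Wt (u y) n) atTop (𝓝 0)
    have h1 : Tendsto (fun n : ℕ => ‖y‖ / 4 ^ n) atTop (𝓝 0) := by
      have h2 : Tendsto (fun n : ℕ => ‖y‖ * (1 / 4) ^ n) atTop (𝓝 0) := by
        have h3 := (tendsto_pow_atTop_nhds_zero_of_lt_one (r := (1 / 4 : ℝ)) (by norm_num)
          (by norm_num))
        have h4 := (h3.const_mul ‖y‖)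
        simpa using h4
      refine h2.congr (fun n => ?_)
      rw [div_pow, one_pow]
      ring
    exact squeeze_zero (fun n => s.Wt_nonneg _ n) (fun n => s.W_decay (norm_nonneg y) (hu y) n) h1
  · intro n
    show u y n - χ n * H (s.A (u y) n) (s.Wt (u y) (n + 1)) = g n
    rw [hun n]
    ring

/-- The equation can be solved for all right hand sides in `c_0`. -/
theorem exists_sol {χ : ℕ → ℝ} {N : ℕ} (hχ : IsZone χ N) (g : C₀(ℕ, ℝ)) :
    ∃ x : s.X, ∀ n, s.f χ (x : ℕ →ᵇ ℝ) n = g n := by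
  classical
  have h0 : ∀ j : ℕ, ∃ x : s.X, ∀ n, s.f χ (x : ℕ →ᵇ ℝ) n = if n < j then g n else 0 := by
    intro j
    obtain ⟨x, hx, hx'⟩ := s.exists_sol_finite hχ (fun n => if n < j then g n else 0) j
      (fun n hn => if_neg (by omega))
    exact ⟨⟨x, hx⟩, hx'⟩
  choose x hx using h0
  have hbound : ∀ j, ‖(x j : ℕ →ᵇ ℝ)‖ ≤ 32 * ‖g‖ := by
    intro j
    apply s.norm_lower hχ _ (norm_nonneg g)
    intro n
    rw [hx j n]
    split_ifs
    · exact c0_abs_le g n
    · simp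
  set R : ℝ := 32 * ‖g‖ + 1 with hR
  have hRpos : 0 < R := by positivity
  have hcauchy : CauchySeq x := by
    rw [Metric.cauchySeq_iff]
    intro ε hε
    -- choose P
    obtain ⟨P₀, hP₀⟩ : ∃ P₀ : ℕ, R / ε * 2 < 2 ^ P₀ := by
      obtain ⟨P₀, h⟩ := pow_unbounded_of_one_lt (R / ε * 2) (show (1 : ℝ) < 2 by norm_num)
      exact ⟨P₀, h⟩
    set P := P₀ + N + 1 with hP
    have hP1 : R / 2 ^ P < ε / 2 := by
      have h1 : (2 : ℝ) ^ P₀ ≤ 2 ^ P := pow_le_pow_right₀ (by norm_num) (by omega)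
      have h2 : R / ε * 2 < 2 ^ P := lt_of_lt_of_le hP₀ h1
      rw [div_lt_iff₀ (by positivity)]
      have h3 : R / ε * 2 * (ε / 2) = R := by field_simp
      nlinarith
    have hgt := c0_tendsto g
    rw [Metric.tendsto_atTop] at hgt
    obtain ⟨N₀, hN₀⟩ := hgt (ε / 2 / 2 ^ (P + 3) / 2) (by positivity)
    refine ⟨N₀, fun i hi j hj => ?_⟩
    have hδ : ∀ n, |s.f χ (x i : ℕ →ᵇ ℝ) n - s.f χ (x j : ℕ →ᵇ ℝ) n| ≤ ε / 2 / 2 ^ (P + 3) / 2 := by
      intro n
      rw [hx i n, hx j n]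
      by_cases hn : n < N₀
      · rw [if_pos (by omega), if_pos (by omega)]
        simp
        positivity
      · have h1 := hN₀ n (by omega)
        rw [Real.dist_eq, sub_zero] at h1
        split_ifs
        · simp; positivity
        · rw [sub_zero]; exact h1.le
        · rw [zero_sub, abs_neg]; exact h1.le
        · simp; positivity
    have h2 := s.est_rec (x := (x i : ℕ →ᵇ ℝ)) (y := (x j : ℕ →ᵇ ℝ)) P hRpos
      (δ := ε / 2 / 2 ^ (P + 3) / 2) (by positivity)
      (fun n => ((b_abs_le _ n).trans (hbound i)).trans (by linarith))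
      (fun n => ((b_abs_le _ n).trans (hbound j)).trans (by linarith))
      hχ.1 (fun n hn => hχ.2.2 n (by omega)) hδ
    have h3 : dist (x i : ℕ →ᵇ ℝ) (x j : ℕ →ᵇ ℝ) ≤ ε / 4 + R / 2 ^ P := by
      rw [BoundedContinuousFunction.dist_le (by positivity)]
      intro n
      have := h2 n
      have h4 : 2 ^ (P + 3) * (ε / 2 / 2 ^ (P + 3) / 2) = ε / 4 := by
        field_simp; ring
      rw [h4] at this
      rw [Real.dist_eq]
      exact this
    have h5 : dist (x i) (x j) = dist (x i : ℕ →ᵇ ℝ) (x j : ℕ →ᵇ ℝ) := rfl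
    rw [h5]
    linarith
  obtain ⟨z, hz⟩ := cauchySeq_tendsto_of_complete hcauchy
  refine ⟨z, fun n => ?_⟩
  have h1 : ∀ ε : ℝ, 0 < ε → |s.f χ (z : ℕ →ᵇ ℝ) n - g n| ≤ 5 / 2 * ε := by
    intro ε hε
    rw [Metric.tendsto_atTop] at hz
    obtain ⟨J, hJ⟩ := hz ε hε
    have h2 := hJ (max J (n + 1)) (le_max_left _ _)
    have h3 := hx (max J (n + 1)) n
    rw [if_pos (by have := le_max_right J (n + 1); omega)] at h3
    rw [← h3]
    set w := x (max J (n + 1)) with hw
    have h4 : ∀ q, |(z : ℕ →ᵇ ℝ) q - (w : ℕ →ᵇ ℝ) q| ≤ ε := by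
      intro q
      have h5 := BoundedContinuousFunction.dist_coe_le_dist (f := (z : ℕ →ᵇ ℝ))
        (g := (w : ℕ →ᵇ ℝ)) q
      rw [Real.dist_eq] at h5
      have h6 : dist w z = dist (w : ℕ →ᵇ ℝ) (z : ℕ →ᵇ ℝ) := rfl
      rw [h6, dist_comm] at h2
      linarith
    exact s.f_lip (R := max ‖(z : ℕ →ᵇ ℝ)‖ ‖(w : ℕ →ᵇ ℝ)‖) hχ.1
      (fun q => (b_abs_le _ q).trans (le_max_left _ _))
      (fun q => (b_abs_le _ q).trans (le_max_right _ _)) hε.le h4 n
  have h2 : |s.f χ (z : ℕ →ᵇ ℝ) n - g n| ≤ 0 := by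
    apply le_of_forall_pos_le_add
    intro ε hε
    have := h1 (ε / 4) (by positivity)
    linarith
  have h3 := abs_nonpos_iff.1 h2
  linarith

end Sys

end Pool.Agent.helper380_c0
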